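import Mathlib

set_option autoImplicit false

namespace Pool.Agent.W167.K57
open Finset

/-- `h` is harmonic on level `j`: the sum of `h` over the `j`-sets containing a given smaller set is 0. -/
def Harm (n j : ℕ) (h : Finset (Fin n) → ℝ) : Prop :=
  ∀ I : Finset (Fin n), I.card < j →
    ∑ J ∈ (univ : Finset (Finset (Fin n))).filter (fun J => J.card = j ∧ I ⊆ J), h J = 0

/-- sum of `h` over the `j`-subsets of `T`. -/
noncomputable def Lift (n j : ℕ) (h : Finset (Fin n) → ℝ) (T : Finset (Fin n)) : ℝ :=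
  ∑ J ∈ (univ : Finset (Finset (Fin n))).filter (fun J => J.card = j ∧ J ⊆ T), h J

/-- harmonicity for sets of size j-1 is enough -/
def StmLA : Prop := ∀ (n j : ℕ) (h : Finset (Fin n) → ℝ),
  (∀ I : Finset (Fin n), I.card + 1 = j →
    ∑ J ∈ (univ : Finset (Finset (Fin n))).filter (fun J => J.card = j ∧ I ⊆ J), h J = 0) →
  Harm n j h

/-- inclusion-exclusion -/
def StmLB : Prop := ∀ (n j : ℕ) (h : Finset (Fin n) → ℝ), Harm n j h →
  ∀ T M : Finset (Fin n), M ⊆ T →
    ∑ J ∈ (univ : Finset (Finset (Fin n))).filter (fun J => J.card = j ∧ J ∩ T = M), h J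
      = ∑ I ∈ (univ : Finset (Finset (Fin n))).filter (fun I => I.card = j ∧ I ⊆ T ∧ M ⊆ I),
          (-1 : ℝ) ^ (j - M.card) * h I

def StmORTH : Prop := ∀ (n s i j : ℕ) (h : Finset (Fin n) → ℝ), i < j → Harm n j h →
  ∑ T ∈ (univ : Finset (Finset (Fin n))).filter (fun T => T.card = s),
    Lift n i h T * Lift n j h T = 0

def StmINJ : Prop := ∀ (n s j : ℕ) (h : Finset (Fin n) → ℝ), j ≤ s → s + j ≤ n → Harm n j h →
  (∀ T : Finset (Fin n), T.card = s → Lift n j h T = 0) →
  ∀ J : Finset (Fin n), J.card = j → h J = 0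

def StmKN : Prop := ∀ (n s j : ℕ) (h : Finset (Fin n) → ℝ), j ≤ s → Harm n j h →
  ∀ T : Finset (Fin n), T.card = s →
  ∑ U ∈ (univ : Finset (Finset (Fin n))).filter (fun U => U.card = s ∧ Disjoint U T), Lift n j h U
    = (-1 : ℝ) ^ j * ((n - s - j).choose (s - j) : ℝ) * Lift n j h T

end Pool.Agent.W167.K57
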