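import Mathlib
import Pool.Agent.W167.K57.Stm

set_option autoImplicit false

namespace Pool.Agent.W167.K57
open Finset

noncomputable def bt {n : ℕ} (X : Finset (Fin n)) (i : Fin n) : ℝ := if i ∈ X then 1 else 0

noncomputable def fm {n : ℕ} (F : Finset (Finset (Fin n))) (α : Finset (Fin n) → ℝ)
    (T : Finset (Fin n)) : ℝ := ∑ X ∈ F, α X * ∏ i ∈ T, bt X i

noncomputable def Kr {n : ℕ} (s : ℕ) (X Y : Finset (Fin n)) : ℝ :=
  ∑ S ∈ (univ : Finset (Finset (Fin n))).filter (fun S => Even S.card ∧ S.card ≤ 2 * s),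
    ∏ i ∈ S, (bt X i - bt Y i)

lemma Kr_self {n : ℕ} (s : ℕ) (X : Finset (Fin n)) : Kr s X X = 1 := by
  unfold Kr
  rw [Finset.sum_eq_single ∅]
  · simp
  · intro S _ hS
    obtain ⟨x, hx⟩ := Finset.nonempty_iff_ne_empty.mpr hS
    exact Finset.prod_eq_zero hx (by simp)
  · intro h
    exact absurd (by simp) h

lemma sum_even {n : ℕ} (d : Fin n → ℝ) (hp : ∃ i, d i = 1) (hm : ∃ i, d i = -1) :
    ∑ S ∈ (univ : Finset (Finset (Fin n))).filter (fun S => Even S.card), ∏ i ∈ S, d i = 0 := by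
  have h1 : ∑ S : Finset (Fin n), ∏ i ∈ S, d i = 0 := by
    have := Finset.prod_one_add (s := (univ : Finset (Fin n))) (f := d)
    rw [← Finset.powerset_univ, ← this]
    obtain ⟨i, hi⟩ := hm
    exact Finset.prod_eq_zero (Finset.mem_univ i) (by rw [hi]; norm_num)
  have h2 : ∑ S : Finset (Fin n), (-1 : ℝ) ^ S.card * ∏ i ∈ S, d i = 0 := by
    have := Finset.prod_one_add (s := (univ : Finset (Fin n))) (f := fun i => - d i)
    have h3 : ∀ S : Finset (Fin n), ∏ i ∈ S, (- d i) = (-1 : ℝ) ^ S.card * ∏ i ∈ S, d i := by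
      intro S
      rw [Finset.prod_neg]
    simp only [h3] at this
    rw [← Finset.powerset_univ, ← this]
    obtain ⟨i, hi⟩ := hp
    exact Finset.prod_eq_zero (Finset.mem_univ i) (by rw [hi]; norm_num)
  have h3 : ∑ S : Finset (Fin n), ((1 + (-1 : ℝ) ^ S.card) * ∏ i ∈ S, d i) = 0 := by
    have : ∀ S : Finset (Fin n), (1 + (-1 : ℝ) ^ S.card) * ∏ i ∈ S, d i
        = ∏ i ∈ S, d i + (-1 : ℝ) ^ S.card * ∏ i ∈ S, d i := by intro S; ring
    simp only [this, Finset.sum_add_distrib, h1, h2, add_zero]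
  have h4 : ∑ S : Finset (Fin n), ((1 + (-1 : ℝ) ^ S.card) * ∏ i ∈ S, d i)
      = 2 * ∑ S ∈ (univ : Finset (Finset (Fin n))).filter (fun S => Even S.card), ∏ i ∈ S, d i := by
    rw [Finset.mul_sum, Finset.sum_filter]
    refine Finset.sum_congr rfl (fun S _ => ?_)
    by_cases hS : Even S.card
    · rw [if_pos hS, hS.neg_one_pow]; ring
    · rw [if_neg hS, (Nat.not_even_iff_odd.mp hS).neg_one_pow]; ring
  linarith

lemma Kr_off {n : ℕ} (s : ℕ) (X Y : Finset (Fin n)) (h1 : ¬ X ⊆ Y) (h2 : ¬ Y ⊆ X)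
    (hd : (symmDiff X Y).card ≤ 2 * s + 1) : Kr s X Y = 0 := by
  have key := sum_even (fun i => bt X i - bt Y i) (by
    obtain ⟨x, hx, hy⟩ := Finset.not_subset.mp h1
    exact ⟨x, by simp [bt, hx, hy]⟩) (by
    obtain ⟨x, hx, hy⟩ := Finset.not_subset.mp h2
    exact ⟨x, by simp [bt, hx, hy]⟩)
  unfold Kr
  rw [← key]
  apply Finset.sum_subset
  · intro S hS
    simp only [Finset.mem_filter, Finset.mem_univ, true_and] at hS ⊢
    exact hS.1
  · intro S hS hS'
    simp only [Finset.mem_filter, Finset.mem_univ, true_and] at hS hS'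
    have h3 : 2 * s + 1 < S.card := by
      have h4 : ¬ S.card ≤ 2 * s := fun h => hS' ⟨hS, h⟩
      obtain ⟨k, hk⟩ := hS
      omega
    have h5 : ¬ S ⊆ symmDiff X Y := by
      intro h
      have := Finset.card_le_card h
      omega
    obtain ⟨x, hx, hx'⟩ := Finset.not_subset.mp h5
    refine Finset.prod_eq_zero hx ?_
    rw [Finset.mem_symmDiff] at hx'
    unfold bt
    by_cases ha : x ∈ X <;> by_cases hb : x ∈ Y <;> simp_all

lemma quad1 {n : ℕ} (s : ℕ) (F : Finset (Finset (Fin n)))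
    (hF : IsAntichain (· ⊆ ·) (F : Set (Finset (Fin n))))
    (hd : ∀ A ∈ F, ∀ B ∈ F, (symmDiff A B).card ≤ 2 * s + 1) (α : Finset (Fin n) → ℝ) :
    ∑ X ∈ F, ∑ Y ∈ F, α X * α Y * Kr s X Y = ∑ X ∈ F, α X ^ 2 := by
  refine Finset.sum_congr rfl (fun X hX => ?_)
  rw [Finset.sum_eq_single X]
  · rw [Kr_self]; ring
  · intro Y hY hne
    rw [Kr_off s X Y (fun h => hF hX hY hne.symm h) (fun h => hF hY hX hne h) (hd X hX Y hY)]
    ring
  · intro h; exact absurd hX h

lemma Kr_expand {n : ℕ} (s : ℕ) (X Y : Finset (Fin n)) :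
    Kr s X Y = ∑ S ∈ (univ : Finset (Finset (Fin n))).filter (fun S => Even S.card ∧ S.card ≤ 2 * s),
      ∑ T ∈ S.powerset, (-1 : ℝ) ^ (S \ T).card * ((∏ i ∈ T, bt X i) * ∏ i ∈ S \ T, bt Y i) := by
  unfold Kr
  refine Finset.sum_congr rfl (fun S _ => ?_)
  have : ∀ i, bt X i - bt Y i = bt X i + (- bt Y i) := fun i => by ring
  simp only [this]
  rw [Finset.prod_add]
  refine Finset.sum_congr rfl (fun T _ => ?_)
  rw [Finset.prod_neg]
  ring

lemma quad2 {n : ℕ} (s : ℕ) (F : Finset (Finset (Fin n))) (α : Finset (Fin n) → ℝ) :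
    ∑ X ∈ F, ∑ Y ∈ F, α X * α Y * Kr s X Y
      = ∑ S ∈ (univ : Finset (Finset (Fin n))).filter (fun S => Even S.card ∧ S.card ≤ 2 * s),
      ∑ T ∈ S.powerset, (-1 : ℝ) ^ (S \ T).card * (fm F α T * fm F α (S \ T)) := by
  simp only [Kr_expand, Finset.mul_sum]
  have h1 : ∀ X ∈ F, ∑ Y ∈ F, ∑ S ∈ (univ : Finset (Finset (Fin n))).filter (fun S => Even S.card ∧ S.card ≤ 2 * s),
      ∑ T ∈ S.powerset, α X * α Y * ((-1 : ℝ) ^ (S \ T).card * ((∏ i ∈ T, bt X i) * ∏ i ∈ S \ T, bt Y i))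
      = ∑ S ∈ (univ : Finset (Finset (Fin n))).filter (fun S => Even S.card ∧ S.card ≤ 2 * s),
      ∑ T ∈ S.powerset, ∑ Y ∈ F, α X * α Y * ((-1 : ℝ) ^ (S \ T).card * ((∏ i ∈ T, bt X i) * ∏ i ∈ S \ T, bt Y i)) := by
    intro X _
    rw [Finset.sum_comm]
    refine Finset.sum_congr rfl (fun S _ => ?_)
    rw [Finset.sum_comm]
  rw [Finset.sum_congr rfl h1, Finset.sum_comm]
  refine Finset.sum_congr rfl (fun S _ => ?_)
  rw [Finset.sum_comm]
  refine Finset.sum_congr rfl (fun T _ => ?_)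
  unfold fm
  rw [Finset.sum_mul_sum, Finset.mul_sum]
  refine Finset.sum_congr rfl (fun X _ => ?_)
  rw [Finset.mul_sum]
  refine Finset.sum_congr rfl (fun Y _ => ?_)
  ring

lemma quad3 {n : ℕ} (s : ℕ) (g : Finset (Fin n) → ℝ) (hg : ∀ T : Finset (Fin n), T.card < s → g T = 0) :
    ∑ S ∈ (univ : Finset (Finset (Fin n))).filter (fun S => Even S.card ∧ S.card ≤ 2 * s),
      ∑ T ∈ S.powerset, (-1 : ℝ) ^ (S \ T).card * (g T * g (S \ T))
    = (-1 : ℝ) ^ s * ∑ T ∈ (univ : Finset (Finset (Fin n))).filter (fun T => T.card = s),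
        g T * ∑ U ∈ (univ : Finset (Finset (Fin n))).filter (fun U => U.card = s ∧ Disjoint U T), g U := by
  have h1 : ∀ S ∈ (univ : Finset (Finset (Fin n))).filter (fun S => Even S.card ∧ S.card ≤ 2 * s),
      ∑ T ∈ S.powerset, (-1 : ℝ) ^ (S \ T).card * (g T * g (S \ T))
      = ∑ T ∈ S.powerset.filter (fun T => T.card = s ∧ (S \ T).card = s),
          (-1 : ℝ) ^ s * (g T * g (S \ T)) := by
    intro S hS
    simp only [Finset.mem_filter, Finset.mem_univ, true_and] at hS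
    rw [Finset.sum_filter]
    refine Finset.sum_congr rfl (fun T hT => ?_)
    rw [Finset.mem_powerset] at hT
    have hc := Finset.card_sdiff_add_card_eq_card hT
    by_cases h : T.card = s ∧ (S \ T).card = s
    · rw [if_pos h, h.2]
    · rw [if_neg h]
      rcases lt_or_ge T.card s with h2 | h2
      · rw [hg T h2]; ring
      · rcases lt_or_ge (S \ T).card s with h3 | h3
        · rw [hg _ h3]; ring
        · exact absurd ⟨by omega, by omega⟩ h
  rw [Finset.sum_congr rfl h1]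
  rw [Finset.mul_sum]
  simp only [Finset.mul_sum]
  rw [Finset.sum_sigma', Finset.sum_sigma']
  refine Finset.sum_bij' (fun p _ => ⟨p.2, p.1 \ p.2⟩) (fun p _ => ⟨p.1 ∪ p.2, p.1⟩) ?_ ?_ ?_ ?_ ?_
  · rintro ⟨S, T⟩ h
    simp only [Finset.mem_sigma, Finset.mem_filter, Finset.mem_univ, true_and, Finset.mem_powerset] at h ⊢
    exact ⟨h.2.2.1, h.2.2.2, Finset.sdiff_disjoint⟩
  · rintro ⟨T, U⟩ h
    simp only [Finset.mem_sigma, Finset.mem_filter, Finset.mem_univ, true_and, Finset.mem_powerset] at h ⊢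
    have hdis : Disjoint T U := h.2.2.symm
    have hc : (T ∪ U).card = 2 * s := by
      rw [Finset.card_union_of_disjoint hdis]; omega
    refine ⟨⟨by rw [hc]; exact even_two_mul s, by omega⟩, Finset.subset_union_left, h.1, ?_⟩
    rw [Finset.union_sdiff_cancel_left hdis]
    exact h.2.1
  · rintro ⟨S, T⟩ h
    simp only [Finset.mem_sigma, Finset.mem_filter, Finset.mem_univ, true_and, Finset.mem_powerset] at h
    have : T ∪ (S \ T) = S := Finset.union_sdiff_of_subset h.2.1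
    simp [this]
  · rintro ⟨T, U⟩ h
    simp only [Finset.mem_sigma, Finset.mem_filter, Finset.mem_univ, true_and, Finset.mem_powerset] at h
    have hdis : Disjoint T U := h.2.2.symm
    have : (T ∪ U) \ T = U := Finset.union_sdiff_cancel_left hdis
    simp [this]
  · rintro ⟨S, T⟩ h
    simp

end Pool.Agent.W167.K57
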