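import Mathlib
import Pool.Agent.W167.K57.Main

set_option autoImplicit false

namespace Pool.Agent.W167.K57
open Finset

lemma card_sub {n : ℕ} (A : Finset ℕ) :
    Fintype.card {T : Finset (Fin n) // T.card ∈ A} = ∑ a ∈ A, n.choose a := by
  rw [Fintype.card_subtype]
  have : (univ : Finset (Finset (Fin n))).filter (fun T => T.card ∈ A)
      = A.biUnion (fun a => Finset.powersetCard a (univ : Finset (Fin n))) := by
    ext T
    simp [Finset.mem_powersetCard]
  rw [this, Finset.card_biUnion]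
  · simp [Finset.card_powersetCard]
  · intro a _ b _ hab
    rw [Function.onFun, Finset.disjoint_left]
    intro T h1 h2
    rw [Finset.mem_powersetCard] at h1 h2
    exact hab (h1.2.symm.trans h2.2)

lemma exists_ker {A B : Type} [Fintype A] [Fintype B] (M : Matrix B A ℝ)
    (h : Fintype.card B < Fintype.card A) : ∃ v : A → ℝ, v ≠ 0 ∧ M.mulVec v = 0 := by
  have h1 : Module.finrank ℝ (B → ℝ) < Module.finrank ℝ (A → ℝ) := by
    rw [Module.finrank_pi, Module.finrank_pi]; exact h
  have h2 : LinearMap.ker (Matrix.mulVecLin M) ≠ ⊥ := LinearMap.ker_ne_bot_of_finrank_lt h1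
  obtain ⟨v, hv, hne⟩ := Submodule.exists_mem_ne_zero_of_ne_bot h2
  exact ⟨v, hne, by simpa using hv⟩

/-- index sets: levels `i < s`, of the other parity (`Io`), of the same parity (`Ie`) -/
def Io (s : ℕ) : Finset ℕ := (range s).filter (fun i => i % 2 ≠ s % 2)
def Ie (s : ℕ) : Finset ℕ := (range s).filter (fun i => i % 2 = s % 2)

lemma exists_sol {n : ℕ} (s : ℕ) (F : Finset (Finset (Fin n)))
    (hc : n.choose s + 2 * ∑ i ∈ Ie s, n.choose i < F.card) :
    ∃ (α h : Finset (Fin n) → ℝ),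
      ((∃ X ∈ F, α X ≠ 0) ∨ (∃ J : Finset (Fin n), J.card ∈ Io s ∧ h J ≠ 0)) ∧
      (∀ T : Finset (Fin n), T.card < s → fm F α T = 0) ∧
      (∀ T : Finset (Fin n), T.card = s → fm F α T = ∑ j ∈ Io s, Lift n j h T) ∧
      (∀ I : Finset (Fin n), I.card ∈ Ie s →
        ∑ J ∈ (univ : Finset (Finset (Fin n))).filter (fun J => J.card = I.card + 1 ∧ I ⊆ J), h J = 0) := by
  classical
  let A := {X : Finset (Fin n) // X ∈ F} ⊕ {J : Finset (Fin n) // J.card ∈ Io s}
  let B := {T : Finset (Fin n) // T.card ∈ range (s + 1)} ⊕ {I : Finset (Fin n) // I.card ∈ Ie s}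
  let M : Matrix B A ℝ := fun b a =>
    match b, a with
    | Sum.inl T, Sum.inl X => ∏ i ∈ T.1, bt X.1 i
    | Sum.inl T, Sum.inr J => if T.1.card = s ∧ J.1 ⊆ T.1 then -1 else 0
    | Sum.inr _, Sum.inl _ => 0
    | Sum.inr I, Sum.inr J => if J.1.card = I.1.card + 1 ∧ I.1 ⊆ J.1 then 1 else 0
  have hcard : Fintype.card B < Fintype.card A := by
    have hA : Fintype.card A = F.card + ∑ i ∈ Io s, n.choose i := by
      rw [Fintype.card_sum, card_sub, Fintype.card_coe]
    have hB : Fintype.card B = ∑ i ∈ range (s + 1), n.choose i + ∑ i ∈ Ie s, n.choose i := by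
      rw [Fintype.card_sum, card_sub, card_sub]
    rw [hA, hB, Finset.sum_range_succ]
    have h1 : ∑ i ∈ range s, n.choose i = ∑ i ∈ Ie s, n.choose i + ∑ i ∈ Io s, n.choose i := by
      unfold Ie Io
      rw [Finset.sum_filter_add_sum_filter_not]
    omega
  obtain ⟨v, hv0, hv⟩ := exists_ker M hcard
  let α : Finset (Fin n) → ℝ := fun X => if hX : X ∈ F then v (Sum.inl ⟨X, hX⟩) else 0
  let h : Finset (Fin n) → ℝ := fun J => if hJ : J.card ∈ Io s then v (Sum.inr ⟨J, hJ⟩) else 0
  have hsumF : ∀ g : Finset (Fin n) → ℝ, ∑ X : {X : Finset (Fin n) // X ∈ F}, g X.1 * v (Sum.inl X)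
      = ∑ X ∈ F, α X * g X := by
    intro g
    rw [← Finset.sum_coe_sort F]
    refine Finset.sum_congr rfl (fun X _ => ?_)
    simp only [α, X.2, dif_pos]
    ring
  have hsumJ : ∀ g : Finset (Fin n) → ℝ, ∑ J : {J : Finset (Fin n) // J.card ∈ Io s}, g J.1 * v (Sum.inr J)
      = ∑ J ∈ (univ : Finset (Finset (Fin n))).filter (fun J => J.card ∈ Io s), g J * h J := by
    intro g
    rw [Finset.sum_subtype (p := fun J : Finset (Fin n) => J.card ∈ Io s)
      ((univ : Finset (Finset (Fin n))).filter (fun J => J.card ∈ Io s)) (by intro J; simp)]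
    refine Finset.sum_congr rfl (fun J _ => ?_)
    simp only [h, J.2, dif_pos]
  have eqT : ∀ T : Finset (Fin n), T.card ≤ s →
      fm F α T = ∑ J ∈ (univ : Finset (Finset (Fin n))).filter (fun J => J.card ∈ Io s),
        (if T.card = s ∧ J ⊆ T then 1 else 0) * h J := by
    intro T hT
    have h1 := congrFun hv (Sum.inl ⟨T, by rw [Finset.mem_range]; omega⟩)
    have h2 : ∑ a : A, M (Sum.inl ⟨T, by rw [Finset.mem_range]; omega⟩) a * v a = 0 := h1
    rw [Fintype.sum_sum_type] at h2
    have h3 := hsumF (fun X => ∏ i ∈ T, bt X i)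
    have h4 := hsumJ (fun J => if T.card = s ∧ J ⊆ T then -1 else 0)
    have h5 : ∑ J ∈ (univ : Finset (Finset (Fin n))).filter (fun J => J.card ∈ Io s),
        (if T.card = s ∧ J ⊆ T then (-1 : ℝ) else 0) * h J
        = - ∑ J ∈ (univ : Finset (Finset (Fin n))).filter (fun J => J.card ∈ Io s),
        (if T.card = s ∧ J ⊆ T then 1 else 0) * h J := by
      rw [← Finset.sum_neg_distrib]
      refine Finset.sum_congr rfl (fun J _ => ?_)
      split_ifs <;> ring
    have h6 : (∑ X : {X : Finset (Fin n) // X ∈ F}, (∏ i ∈ T, bt X.1 i) * v (Sum.inl X))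
      + ∑ J : {J : Finset (Fin n) // J.card ∈ Io s},
        (if T.card = s ∧ J.1 ⊆ T then (-1 : ℝ) else 0) * v (Sum.inr J) = 0 := h2
    rw [h3, h4, h5] at h6
    unfold fm
    linarith
  have eqI : ∀ I : Finset (Fin n), I.card ∈ Ie s →
      ∑ J ∈ (univ : Finset (Finset (Fin n))).filter (fun J => J.card ∈ Io s),
        (if J.card = I.card + 1 ∧ I ⊆ J then 1 else 0) * h J = 0 := by
    intro I hI
    have h1 := congrFun hv (Sum.inr ⟨I, hI⟩)
    have h2 : ∑ a : A, M (Sum.inr ⟨I, hI⟩) a * v a = 0 := h1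
    rw [Fintype.sum_sum_type] at h2
    have h4 := hsumJ (fun J => if J.card = I.card + 1 ∧ I ⊆ J then 1 else 0)
    have h6 : (∑ X : {X : Finset (Fin n) // X ∈ F}, (0 : ℝ) * v (Sum.inl X))
      + ∑ J : {J : Finset (Fin n) // J.card ∈ Io s},
        (if J.1.card = I.card + 1 ∧ I ⊆ J.1 then (1 : ℝ) else 0) * v (Sum.inr J) = 0 := h2
    rw [h4] at h6
    simpa using h6
  refine ⟨α, h, ?_, ?_, ?_, ?_⟩
  · by_contra hcon
    push Not at hcon
    apply hv0
    funext a
    rcases a with ⟨X, hX⟩ | ⟨J, hJ⟩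
    · have := hcon.1 X hX
      simpa [α, hX] using this
    · have := hcon.2 J hJ
      simpa [h, hJ] using this
  · intro T hT
    rw [eqT T hT.le]
    refine Finset.sum_eq_zero (fun J _ => ?_)
    rw [if_neg (by omega), zero_mul]
  · intro T hT
    rw [eqT T hT.le]
    unfold Lift
    have h1 : ∀ J : Finset (Fin n), (if T.card = s ∧ J ⊆ T then (1 : ℝ) else 0) * h J
        = if J ⊆ T then h J else 0 := by
      intro J
      by_cases hJ : J ⊆ T
      · rw [if_pos ⟨hT, hJ⟩, if_pos hJ, one_mul]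
      · rw [if_neg (fun hh => hJ hh.2), if_neg hJ, zero_mul]
    simp only [h1]
    rw [← Finset.sum_filter]
    rw [← Finset.sum_biUnion]
    · refine Finset.sum_congr ?_ (fun _ _ => rfl)
      ext J
      simp only [Finset.mem_filter, Finset.mem_univ, true_and, Finset.mem_biUnion]
      constructor
      · rintro ⟨a, b⟩
        exact ⟨J.card, a, rfl, b⟩
      · rintro ⟨j, a, b, c⟩
        exact ⟨b ▸ a, c⟩
    · intro a _ b _ hab
      rw [Function.onFun, Finset.disjoint_left]
      intro J h1 h2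
      simp only [Finset.mem_filter, Finset.mem_univ, true_and] at h1 h2
      exact hab (h1.1.symm.trans h2.1)
  · intro I hI
    have h1 := eqI I hI
    have h2 : ∀ J : Finset (Fin n), (if J.card = I.card + 1 ∧ I ⊆ J then (1 : ℝ) else 0) * h J
        = if J.card = I.card + 1 ∧ I ⊆ J then h J else 0 := by
      intro J
      split_ifs <;> ring
    simp only [h2] at h1
    rw [← Finset.sum_filter, Finset.filter_filter] at h1
    rw [← h1]
    refine Finset.sum_congr ?_ (fun _ _ => rfl)
    ext J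
    simp only [Finset.mem_filter, Finset.mem_univ, true_and]
    constructor
    · rintro ⟨a, b⟩
      refine ⟨?_, a, b⟩
      unfold Ie at hI
      unfold Io
      simp only [Finset.mem_filter, Finset.mem_range] at hI ⊢
      omega
    · rintro ⟨_, a, b⟩
      exact ⟨a, b⟩

end Pool.Agent.W167.K57
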