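import Mathlib
import Pool.Agent.W167.K57.Stm

set_option autoImplicit false

/-! Proofs of the five parts by helper409 (LA), helper14 (LB), helper278 (ORTH), helper530 (INJ), helper607 (KN). -/

namespace Pool.Agent.W167.K57
open Finset

section PartLA

theorem LA : StmLA := by
  intro n j h h1
  have key : ∀ (d : ℕ) (I : Finset (Fin n)), I.card + (d + 1) = j →
      ∑ J ∈ (univ : Finset (Finset (Fin n))).filter (fun J => J.card = j ∧ I ⊆ J), h J = 0 := by
    intro d
    induction d with
    | zero => intro I hI; exact h1 I (by omega)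
    | succ d ih =>
      intro I hI
      have e1 : ∑ J ∈ (univ : Finset (Finset (Fin n))).filter (fun J => J.card = j ∧ I ⊆ J),
          ∑ _x ∈ J \ I, h J =
          ((d : ℝ) + 2) * ∑ J ∈ (univ : Finset (Finset (Fin n))).filter
            (fun J => J.card = j ∧ I ⊆ J), h J := by
        rw [mul_sum]
        refine sum_congr rfl (fun J hJ => ?_)
        rw [mem_filter] at hJ
        rw [sum_const, card_sdiff_of_subset hJ.2.2, nsmul_eq_mul]
        have : J.card - I.card = d + 2 := by omega
        rw [this]
        push_cast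
        ring
      have e2 : ∑ J ∈ (univ : Finset (Finset (Fin n))).filter (fun J => J.card = j ∧ I ⊆ J),
          ∑ _x ∈ J \ I, h J =
          ∑ x ∈ (univ : Finset (Fin n)).filter (fun x => x ∉ I),
            ∑ J ∈ (univ : Finset (Finset (Fin n))).filter (fun J => J.card = j ∧ insert x I ⊆ J), h J := by
        apply sum_comm'
        intro J x
        simp only [mem_filter, mem_univ, true_and, mem_sdiff, insert_subset_iff]
        tauto
      have e3 : ∑ x ∈ (univ : Finset (Fin n)).filter (fun x => x ∉ I),
            ∑ J ∈ (univ : Finset (Finset (Fin n))).filter (fun J => J.card = j ∧ insert x I ⊆ J), h J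
            = 0 := by
        apply sum_eq_zero
        intro x hx
        rw [mem_filter] at hx
        apply ih
        rw [card_insert_of_notMem hx.2]
        omega
      rw [e2, e3] at e1
      have hd : ((d : ℝ) + 2) ≠ 0 := by positivity
      exact (mul_eq_zero.1 e1.symm).resolve_left hd
  intro I hI
  exact key (j - I.card - 1) I (by omega)


end PartLA

section PartLB

theorem LB_ind (n : ℕ) (T M J : Finset (Fin n)) (hM : M ⊆ T) :
    ∑ I ∈ (univ : Finset (Finset (Fin n))).filter (fun I => (M ⊆ I ∧ I ⊆ T) ∧ I ⊆ J),
      (-1 : ℝ) ^ (I.card - M.card) = if J ∩ T = M then 1 else 0 := by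
  by_cases hMJ : M ⊆ J
  · have hMK : M ⊆ J ∩ T := subset_inter hMJ hM
    have e : (univ : Finset (Finset (Fin n))).filter (fun I => (M ⊆ I ∧ I ⊆ T) ∧ I ⊆ J) =
        ((J ∩ T) \ M).powerset.image (fun I' => M ∪ I') := by
      ext I
      rw [mem_filter, mem_image]
      constructor
      · rintro ⟨-, ⟨h1, h2⟩, h3⟩
        refine ⟨I \ M, mem_powerset.2 (sdiff_subset_sdiff (subset_inter h3 h2) le_rfl), ?_⟩
        exact union_sdiff_of_subset h1
      · rintro ⟨I', hI', rfl⟩
        have h1 := mem_powerset.1 hI'
        have h2 : M ∪ I' ⊆ J ∩ T := union_subset hMK (h1.trans sdiff_subset)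
        exact ⟨mem_univ _, ⟨subset_union_left, h2.trans inter_subset_right⟩,
          h2.trans inter_subset_left⟩
    have hdis : ∀ I' ∈ ((J ∩ T) \ M).powerset, Disjoint M I' := by
      intro I' hI'
      exact (disjoint_sdiff.mono_right (mem_powerset.1 hI'))
    rw [e, sum_image]
    · have e2 : ∑ I' ∈ ((J ∩ T) \ M).powerset, (-1 : ℝ) ^ ((M ∪ I').card - M.card) =
          ∑ I' ∈ ((J ∩ T) \ M).powerset, (-1 : ℝ) ^ I'.card := by
        apply sum_congr rfl
        intro I' hI'
        rw [card_union_of_disjoint (hdis I' hI')]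
        congr 1
        omega
      rw [e2]
      have e3 := Finset.sum_powerset_neg_one_pow_card (x := (J ∩ T) \ M)
      have e4 : ∑ I' ∈ ((J ∩ T) \ M).powerset, (-1 : ℝ) ^ I'.card =
          if (J ∩ T) \ M = ∅ then 1 else 0 := by
        have := congrArg (fun z : ℤ => (z : ℝ)) e3
        push_cast at this
        exact this
      rw [e4]
      by_cases h5 : J ∩ T = M
      · rw [if_pos h5, if_pos (by rw [h5, sdiff_self]; rfl)]
      · rw [if_neg h5, if_neg]
        intro h6
        exact h5 (subset_antisymm (sdiff_eq_empty_iff_subset.1 h6) hMK)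
    · intro a ha b hb hab
      have h1 := hdis a ha
      have h2 := hdis b hb
      have h3 : (M ∪ a) \ M = (M ∪ b) \ M := by
        have : M ∪ a = M ∪ b := hab
        rw [this]
      rwa [union_sdiff_cancel_left h1, union_sdiff_cancel_left h2] at h3
  · have h1 : J ∩ T ≠ M := by
      intro h2
      exact hMJ (h2 ▸ inter_subset_left)
    rw [if_neg h1]
    apply sum_eq_zero
    intro I hI
    exact absurd ((mem_filter.1 hI).2.1.1.trans (mem_filter.1 hI).2.2) hMJ

theorem LB : StmLB := by
  intro n j h hh T M hM
  have hB : ∀ I : Finset (Fin n),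
      ∑ J ∈ (univ : Finset (Finset (Fin n))).filter (fun J => J.card = j ∧ I ⊆ J), h J =
        if I.card = j then h I else 0 := by
    intro I
    rcases lt_trichotomy I.card j with h1 | h1 | h1
    · rw [hh I h1, if_neg (by omega)]
    · rw [if_pos h1]
      have e : (univ : Finset (Finset (Fin n))).filter (fun J => J.card = j ∧ I ⊆ J) = {I} := by
        ext J
        rw [mem_filter, mem_singleton]
        constructor
        · rintro ⟨-, h2, h3⟩
          exact (eq_of_subset_of_card_le h3 (by omega)).symm
        · rintro rfl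
          exact ⟨mem_univ _, h1, subset_rfl⟩
      rw [e, sum_singleton]
    · rw [if_neg (by omega)]
      apply sum_eq_zero
      intro J hJ
      have h2 := (mem_filter.1 hJ).2
      have := card_le_card h2.2
      omega
  have s1 : ∑ J ∈ (univ : Finset (Finset (Fin n))).filter (fun J => J.card = j ∧ J ∩ T = M), h J =
      ∑ J ∈ (univ : Finset (Finset (Fin n))).filter (fun J => J.card = j),
        (if J ∩ T = M then (1 : ℝ) else 0) * h J := by
    rw [← filter_filter, sum_filter]
    apply sum_congr rfl
    intro J _
    split_ifs <;> simp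
  have s2 : ∑ J ∈ (univ : Finset (Finset (Fin n))).filter (fun J => J.card = j),
        (if J ∩ T = M then (1 : ℝ) else 0) * h J =
      ∑ J ∈ (univ : Finset (Finset (Fin n))).filter (fun J => J.card = j),
        ∑ I ∈ (univ : Finset (Finset (Fin n))).filter (fun I => (M ⊆ I ∧ I ⊆ T) ∧ I ⊆ J),
          (-1 : ℝ) ^ (I.card - M.card) * h J := by
    apply sum_congr rfl
    intro J _
    rw [← LB_ind n T M J hM, sum_mul]
  have s3 : ∑ J ∈ (univ : Finset (Finset (Fin n))).filter (fun J => J.card = j),
        ∑ I ∈ (univ : Finset (Finset (Fin n))).filter (fun I => (M ⊆ I ∧ I ⊆ T) ∧ I ⊆ J),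
          (-1 : ℝ) ^ (I.card - M.card) * h J =
      ∑ I ∈ (univ : Finset (Finset (Fin n))).filter (fun I => M ⊆ I ∧ I ⊆ T),
        ∑ J ∈ (univ : Finset (Finset (Fin n))).filter (fun J => J.card = j ∧ I ⊆ J),
          (-1 : ℝ) ^ (I.card - M.card) * h J := by
    apply sum_comm'
    intro J I
    simp only [mem_filter, mem_univ, true_and]
    tauto
  rw [s1, s2, s3]
  have s4 : ∀ I ∈ (univ : Finset (Finset (Fin n))).filter (fun I => M ⊆ I ∧ I ⊆ T),
      ∑ J ∈ (univ : Finset (Finset (Fin n))).filter (fun J => J.card = j ∧ I ⊆ J),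
          (-1 : ℝ) ^ (I.card - M.card) * h J =
        if I.card = j then (-1 : ℝ) ^ (j - M.card) * h I else 0 := by
    intro I _
    rw [← mul_sum, hB I]
    split_ifs with h1
    · rw [h1]
    · rw [mul_zero]
  rw [sum_congr rfl s4, ← sum_filter, filter_filter]
  apply sum_congr _ fun _ _ => rfl
  ext I
  simp only [mem_filter, mem_univ, true_and]
  tauto



end PartLB

section PartORTH

/-- number of `s`-sets containing a given set -/
theorem orth_cnt (n s : ℕ) (A : Finset (Fin n)) :
    ((univ : Finset (Finset (Fin n))).filter (fun T => T.card = s ∧ A ⊆ T)).card =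
      if A.card ≤ s then (n - A.card).choose (s - A.card) else 0 := by
  split_ifs with hA
  · have hc : (powersetCard (s - A.card) Aᶜ).card = (n - A.card).choose (s - A.card) := by
      rw [card_powersetCard, card_compl, Fintype.card_fin]
    rw [← hc]
    refine card_nbij' (fun T => T \ A) (fun U => A ∪ U) ?_ ?_ ?_ ?_
    · intro T hT
      simp only [mem_coe, mem_filter, mem_univ, true_and] at hT
      simp only [mem_coe, mem_powersetCard]
      refine ⟨fun x hx => by simp only [mem_sdiff] at hx; simpa using hx.2, ?_⟩
      rw [card_sdiff_of_subset hT.2, hT.1]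
    · intro U hU
      simp only [mem_coe, mem_powersetCard] at hU
      simp only [mem_coe, mem_filter, mem_univ, true_and]
      have hd : Disjoint A U := by
        rw [disjoint_left]
        intro x hx hxU
        exact (mem_compl.1 (hU.1 hxU)) hx
      refine ⟨?_, subset_union_left⟩
      rw [card_union_of_disjoint hd, hU.2]
      omega
    · intro T hT
      simp only [mem_coe, mem_filter, mem_univ, true_and] at hT
      exact union_sdiff_of_subset hT.2
    · intro U hU
      simp only [mem_coe, mem_powersetCard] at hU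
      have hd : Disjoint A U := by
        rw [disjoint_left]
        intro x hx hxU
        exact (mem_compl.1 (hU.1 hxU)) hx
      show (A ∪ U) \ A = U
      rw [union_sdiff_left]
      exact sdiff_eq_self_of_disjoint hd.symm
  · rw [card_eq_zero, filter_eq_empty_iff]
    rintro T - ⟨h1, h2⟩
    exact hA (h1 ▸ card_le_card h2)

/-- the inner sum vanishes -/
theorem orth_inner (hLB : StmLB) (n i j : ℕ) (h : Finset (Fin n) → ℝ) (hij : i < j)
    (hh : Harm n j h) (c : ℕ → ℝ) (J' : Finset (Fin n)) (hJ' : J'.card = i) :
    ∑ J ∈ (univ : Finset (Finset (Fin n))).filter (fun J => J.card = j),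
      h J * c (J ∪ J').card = 0 := by
  rw [← sum_fiberwise_of_maps_to (t := J'.powerset) (g := fun J => J ∩ J')
    (fun J _ => mem_powerset.2 inter_subset_right)]
  apply sum_eq_zero
  intro M hM
  rw [mem_powerset] at hM
  have h1 : ∀ J ∈ ((univ : Finset (Finset (Fin n))).filter (fun J => J.card = j)).filter
      (fun J => J ∩ J' = M), h J * c (J ∪ J').card = h J * c (j + i - M.card) := by
    intro J hJ
    simp only [mem_filter, mem_univ, true_and] at hJ
    have h2 : (J ∪ J').card = j + i - M.card := by
      rw [card_union, hJ.1, hJ', hJ.2]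
    rw [h2]
  rw [sum_congr rfl h1, ← sum_mul, filter_filter]
  have h3 := hLB n j h hh J' M hM
  rw [h3]
  have h4 : (univ : Finset (Finset (Fin n))).filter (fun I => I.card = j ∧ I ⊆ J' ∧ M ⊆ I) = ∅ := by
    rw [filter_eq_empty_iff]
    rintro I - ⟨h5, h6, -⟩
    have := card_le_card h6
    omega
  rw [h4, sum_empty, zero_mul]

theorem ORTH (hLB : StmLB) : StmORTH := by
  intro n s i j h hij hh
  have e1 : ∀ (k : ℕ) (T : Finset (Fin n)), Lift n k h T =
      ∑ J ∈ (univ : Finset (Finset (Fin n))).filter (fun J => J.card = k),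
        if J ⊆ T then h J else 0 := by
    intro k T
    unfold Lift
    rw [← filter_filter, sum_filter]
  simp_rw [e1, sum_mul_sum]
  rw [sum_comm]
  apply sum_eq_zero
  intro J' hJ'
  simp only [mem_filter, mem_univ, true_and] at hJ'
  rw [sum_comm]
  have e2 : ∀ J ∈ (univ : Finset (Finset (Fin n))).filter (fun J => J.card = j),
      ∑ T ∈ (univ : Finset (Finset (Fin n))).filter (fun T => T.card = s),
        (if J' ⊆ T then h J' else 0) * (if J ⊆ T then h J else 0) =
      h J' * (h J * ((if (J ∪ J').card ≤ s then
        (n - (J ∪ J').card).choose (s - (J ∪ J').card) else 0 : ℕ) : ℝ)) := by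
    intro J _
    rw [← orth_cnt n s (J ∪ J')]
    have e3 : ∀ T ∈ (univ : Finset (Finset (Fin n))).filter (fun T => T.card = s),
        (if J' ⊆ T then h J' else 0) * (if J ⊆ T then h J else 0) =
        if J ∪ J' ⊆ T then h J' * h J else 0 := by
      intro T _
      by_cases a1 : J' ⊆ T <;> by_cases a2 : J ⊆ T <;> simp [a1, a2, union_subset_iff]
    rw [sum_congr rfl e3, ← sum_filter, filter_filter, sum_const, nsmul_eq_mul]
    ring
  rw [sum_congr rfl e2, ← mul_sum,
    orth_inner hLB n i j h hij hh (fun m => ((if m ≤ s then (n - m).choose (s - m) else 0 : ℕ) : ℝ))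
      J' hJ', mul_zero]



end PartORTH

section PartINJ


lemma lift_card (n j : ℕ) (h : Finset (Fin n) → ℝ) (T : Finset (Fin n)) (hT : T.card = j) :
    Lift n j h T = h T := by
  unfold Lift
  have h1 : (univ : Finset (Finset (Fin n))).filter (fun J => J.card = j ∧ J ⊆ T) = {T} := by
    ext J
    simp only [mem_filter, mem_univ, true_and, mem_singleton]
    constructor
    · rintro ⟨h2, h3⟩
      exact eq_of_subset_of_card_le h3 (by omega)
    · rintro rfl
      exact ⟨hT, Subset.refl _⟩
  rw [h1, sum_singleton]

lemma count_sub (n j : ℕ) (U J : Finset (Fin n)) (hJ : J.card = j) :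
    (((univ : Finset (Fin n)).filter (fun x => x ∉ U ∧ J ⊆ insert x U)).card : ℝ) -
      (((univ : Finset (Finset (Fin n))).filter
        (fun I => I.card + 1 = j ∧ I ⊆ U ∧ I ⊆ J)).card : ℝ) =
      if J ⊆ U then (n : ℝ) - U.card - j else 0 := by
  by_cases hs : J ⊆ U
  · rw [if_pos hs]
    have h1 : (univ : Finset (Fin n)).filter (fun x => x ∉ U ∧ J ⊆ insert x U) = Uᶜ := by
      ext x
      simp only [mem_filter, mem_univ, true_and, mem_compl]
      exact ⟨fun h => h.1, fun h => ⟨h, hs.trans (subset_insert x U)⟩⟩
    have h2 : ((univ : Finset (Finset (Fin n))).filter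
        (fun I => I.card + 1 = j ∧ I ⊆ U ∧ I ⊆ J)).card = j := by
      rcases Nat.eq_zero_or_pos j with h0 | h0
      · subst h0
        rw [card_eq_zero, filter_eq_empty_iff]
        intro I _ h3
        omega
      · have h3 : (univ : Finset (Finset (Fin n))).filter
            (fun I => I.card + 1 = j ∧ I ⊆ U ∧ I ⊆ J) = powersetCard (j - 1) J := by
          ext I
          simp only [mem_filter, mem_univ, true_and, mem_powersetCard]
          constructor
          · rintro ⟨h4, h5, h6⟩
            exact ⟨h6, by omega⟩
          · rintro ⟨h4, h5⟩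
            exact ⟨by omega, h4.trans hs, h4⟩
        rw [h3, card_powersetCard, hJ]
        obtain ⟨k, rfl⟩ : ∃ k, j = k + 1 := ⟨j - 1, by omega⟩
        rw [Nat.add_sub_cancel, Nat.choose_succ_self_right]
    rw [h1, h2, card_compl, Fintype.card_fin, Nat.cast_sub (by simpa using card_le_univ U)]
  · rw [if_neg hs]
    obtain ⟨y, hyJ, hyU⟩ := not_subset.1 hs
    have hle : ∀ I : Finset (Fin n), I.card + 1 = j → I ⊆ U → I ⊆ J → I = J.erase y := by
      intro I h1 h2 h3
      refine eq_of_subset_of_card_le ?_ ?_
      · intro z hz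
        rw [mem_erase]
        refine ⟨?_, h3 hz⟩
        rintro rfl
        exact hyU (h2 hz)
      · rw [card_erase_of_mem hyJ]
        omega
    by_cases hy : J ⊆ insert y U
    · have h1 : (univ : Finset (Fin n)).filter (fun x => x ∉ U ∧ J ⊆ insert x U) = {y} := by
        ext x
        simp only [mem_filter, mem_univ, true_and, mem_singleton]
        constructor
        · rintro ⟨h2, h3⟩
          rcases mem_insert.1 (h3 hyJ) with h4 | h4
          · exact h4.symm
          · exact absurd h4 hyU
        · rintro rfl
          exact ⟨hyU, hy⟩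
      have h2 : (univ : Finset (Finset (Fin n))).filter
          (fun I => I.card + 1 = j ∧ I ⊆ U ∧ I ⊆ J) = {J.erase y} := by
        ext I
        simp only [mem_filter, mem_univ, true_and, mem_singleton]
        constructor
        · rintro ⟨h3, h4, h5⟩
          exact hle I h3 h4 h5
        · rintro rfl
          refine ⟨?_, ?_, erase_subset _ _⟩
          · rw [card_erase_of_mem hyJ]
            have := card_pos.2 ⟨y, hyJ⟩
            omega
          · intro z hz
            rw [mem_erase] at hz
            rcases mem_insert.1 (hy hz.2) with h4 | h4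
            · exact absurd h4 hz.1
            · exact h4
      rw [h1, h2]
      simp
    · have h1 : (univ : Finset (Fin n)).filter (fun x => x ∉ U ∧ J ⊆ insert x U) = ∅ := by
        rw [filter_eq_empty_iff]
        rintro x _ ⟨h2, h3⟩
        rcases mem_insert.1 (h3 hyJ) with h4 | h4
        · rw [h4] at hy
          exact hy h3
        · exact hyU h4
      have h2 : (univ : Finset (Finset (Fin n))).filter
          (fun I => I.card + 1 = j ∧ I ⊆ U ∧ I ⊆ J) = ∅ := by
        rw [filter_eq_empty_iff]
        rintro I _ ⟨h3, h4, h5⟩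
        apply hy
        intro z hz
        rw [mem_insert]
        by_cases hzy : z = y
        · exact Or.inl hzy
        · right
          apply h4
          rw [hle I h3 h4 h5]
          exact mem_erase.2 ⟨hzy, hz⟩
      rw [h1, h2]
      simp

lemma lift_step (n j : ℕ) (h : Finset (Fin n) → ℝ) (hh : Harm n j h) (U : Finset (Fin n)) :
    ∑ x ∈ (univ : Finset (Fin n)).filter (fun x => x ∉ U), Lift n j h (insert x U) =
      ((n : ℝ) - U.card - j) * Lift n j h U := by
  have hA : ∑ x ∈ (univ : Finset (Fin n)).filter (fun x => x ∉ U), Lift n j h (insert x U) =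
      ∑ J ∈ (univ : Finset (Finset (Fin n))).filter (fun J => J.card = j),
        (((univ : Finset (Fin n)).filter (fun x => x ∉ U ∧ J ⊆ insert x U)).card : ℝ) * h J := by
    unfold Lift
    rw [sum_comm' (s' := fun J => (univ : Finset (Fin n)).filter
      (fun x => x ∉ U ∧ J ⊆ insert x U)) (t' := (univ : Finset (Finset (Fin n))).filter
      (fun J => J.card = j))]
    · refine sum_congr rfl fun J _ => ?_
      rw [sum_const, nsmul_eq_mul]
    · intro x J
      simp only [mem_filter, mem_univ, true_and]
      tauto
  have hB : (0 : ℝ) = ∑ J ∈ (univ : Finset (Finset (Fin n))).filter (fun J => J.card = j),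
      (((univ : Finset (Finset (Fin n))).filter
        (fun I => I.card + 1 = j ∧ I ⊆ U ∧ I ⊆ J)).card : ℝ) * h J := by
    have h1 : (0 : ℝ) = ∑ I ∈ (univ : Finset (Finset (Fin n))).filter
        (fun I => I.card + 1 = j ∧ I ⊆ U),
        ∑ J ∈ (univ : Finset (Finset (Fin n))).filter (fun J => J.card = j ∧ I ⊆ J), h J := by
      symm
      apply sum_eq_zero
      intro I hI
      rw [mem_filter] at hI
      exact hh I (by omega)
    rw [h1, sum_comm' (s' := fun J => (univ : Finset (Finset (Fin n))).filter
      (fun I => I.card + 1 = j ∧ I ⊆ U ∧ I ⊆ J)) (t' := (univ : Finset (Finset (Fin n))).filter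
      (fun J => J.card = j))]
    · refine sum_congr rfl fun J _ => ?_
      rw [sum_const, nsmul_eq_mul]
    · intro I J
      simp only [mem_filter, mem_univ, true_and]
      tauto
  rw [hA, ← sub_zero (∑ J ∈ (univ : Finset (Finset (Fin n))).filter (fun J => J.card = j),
        (((univ : Finset (Fin n)).filter (fun x => x ∉ U ∧ J ⊆ insert x U)).card : ℝ) * h J), hB,
    ← sum_sub_distrib]
  have h2 : ∀ J ∈ (univ : Finset (Finset (Fin n))).filter (fun J => J.card = j),
      (((univ : Finset (Fin n)).filter (fun x => x ∉ U ∧ J ⊆ insert x U)).card : ℝ) * h J -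
      (((univ : Finset (Finset (Fin n))).filter
        (fun I => I.card + 1 = j ∧ I ⊆ U ∧ I ⊆ J)).card : ℝ) * h J =
      if J ⊆ U then ((n : ℝ) - U.card - j) * h J else 0 := by
    intro J hJ
    rw [mem_filter] at hJ
    rw [← sub_mul, count_sub n j U J hJ.2]
    split_ifs <;> simp
  rw [sum_congr rfl h2, ← sum_filter, filter_filter]
  unfold Lift
  rw [mul_sum]

theorem INJ' : StmINJ := by
  intro n s j h hjs hsn hh hz
  obtain ⟨t, rfl⟩ := Nat.exists_eq_add_of_le hjs
  clear hjs
  induction t with
  | zero =>
    intro J hJ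
    rw [← lift_card n j h J hJ]
    exact hz J (by simpa using hJ)
  | succ t ih =>
    refine ih (by omega) ?_
    intro U hU
    have h1 := lift_step n j h hh U
    have h2 : ∑ x ∈ (univ : Finset (Fin n)).filter (fun x => x ∉ U), Lift n j h (insert x U) = 0 := by
      apply sum_eq_zero
      intro x hx
      rw [mem_filter] at hx
      apply hz
      rw [card_insert_of_notMem hx.2, hU]
      ring
    rw [h2] at h1
    have h3 : (n : ℝ) - U.card - j ≠ 0 := by
      rw [hU]
      have h4 : ((j + (t + 1) + j : ℕ) : ℝ) ≤ n := by exact_mod_cast hsn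
      push_cast at h4 ⊢
      intro h5
      linarith
    rcases mul_eq_zero.1 h1.symm with h4 | h4
    · exact absurd h4 h3
    · exact h4

theorem INJ (_hLB : StmLB) : StmINJ := INJ'


end PartINJ

section PartKN

theorem KN_count (n s j : ℕ) (T J : Finset (Fin n)) (hT : T.card = s) (hJ : J.card = j)
    (hjs : j ≤ s) (hd : J ∩ T = ∅) :
    ((univ : Finset (Finset (Fin n))).filter
      (fun U => U.card = s ∧ Disjoint U T ∧ J ⊆ U)).card = (n - s - j).choose (s - j) := by
  classical
  have hdis : Disjoint T J := by
    rw [disjoint_iff_inter_eq_empty, inter_comm]; exact hd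
  have h1 : (powersetCard (s - j) (T ∪ J)ᶜ).card = (n - s - j).choose (s - j) := by
    rw [card_powersetCard, card_compl, Fintype.card_fin, card_union_of_disjoint hdis, hT, hJ,
      Nat.sub_sub]
  rw [← h1]
  refine Finset.card_nbij' (fun U => U \ J) (fun V => V ∪ J) ?_ ?_ ?_ ?_
  · intro U hU
    simp only [coe_filter, mem_univ, true_and, Set.mem_setOf_eq] at hU
    obtain ⟨hU1, hU2, hU3⟩ := hU
    simp only [mem_coe, mem_powersetCard]
    refine ⟨?_, ?_⟩
    · intro a ha
      rw [mem_sdiff] at ha
      rw [mem_compl, mem_union, not_or]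
      exact ⟨fun haT => (disjoint_left.mp hU2 ha.1 haT), ha.2⟩
    · rw [card_sdiff_of_subset hU3, hU1, hJ]
  · intro V hV
    simp only [mem_coe, mem_powersetCard] at hV
    obtain ⟨hV1, hV2⟩ := hV
    simp only [coe_filter, mem_univ, true_and, Set.mem_setOf_eq]
    have hVJ : Disjoint V J := by
      rw [disjoint_left]
      intro a ha haJ
      have := hV1 ha
      rw [mem_compl, mem_union, not_or] at this
      exact this.2 haJ
    have hVT : Disjoint V T := by
      rw [disjoint_left]
      intro a ha haT
      have := hV1 ha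
      rw [mem_compl, mem_union, not_or] at this
      exact this.1 haT
    refine ⟨?_, ?_, subset_union_right⟩
    · rw [card_union_of_disjoint hVJ, hV2, hJ]
      omega
    · rw [disjoint_union_left]
      exact ⟨hVT, hdis.symm⟩
  · intro U hU
    simp only [coe_filter, mem_univ, true_and, Set.mem_setOf_eq] at hU
    exact sdiff_union_of_subset hU.2.2
  · intro V hV
    simp only [mem_coe, mem_powersetCard] at hV
    have hVJ : Disjoint V J := by
      rw [disjoint_left]
      intro a ha haJ
      have := hV.1 ha
      rw [mem_compl, mem_union, not_or] at this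
      exact this.2 haJ
    exact union_sdiff_cancel_right hVJ

theorem KN (hLB : StmLB) : StmKN := by
  classical
  intro n s j h hjs hH T hT
  have hL := hLB n j h hH T ∅ (empty_subset _)
  have h1 : ∑ I ∈ (univ : Finset (Finset (Fin n))).filter
      (fun I => I.card = j ∧ I ⊆ T ∧ ∅ ⊆ I),
      (-1 : ℝ) ^ (j - (∅ : Finset (Fin n)).card) * h I = (-1) ^ j * Lift n j h T := by
    rw [card_empty, Nat.sub_zero, ← mul_sum]
    unfold Lift
    congr 1
    apply sum_congr _ (fun _ _ => rfl)
    ext I
    simp
  rw [h1] at hL
  have h2 : ∑ U ∈ (univ : Finset (Finset (Fin n))).filter (fun U => U.card = s ∧ Disjoint U T),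
      Lift n j h U
      = ∑ J ∈ (univ : Finset (Finset (Fin n))).filter (fun J => J.card = j),
        ∑ U ∈ (univ : Finset (Finset (Fin n))).filter
          (fun U => U.card = s ∧ Disjoint U T ∧ J ⊆ U), h J := by
    unfold Lift
    apply sum_comm'
    intro U J
    simp only [mem_filter, mem_univ, true_and]
    tauto
  have h3 : ∀ J ∈ (univ : Finset (Finset (Fin n))).filter (fun J => J.card = j),
      ∑ U ∈ (univ : Finset (Finset (Fin n))).filter
          (fun U => U.card = s ∧ Disjoint U T ∧ J ⊆ U), h J
        = if J ∩ T = ∅ then ((n - s - j).choose (s - j) : ℝ) * h J else 0 := by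
    intro J hJ
    simp only [mem_filter, mem_univ, true_and] at hJ
    rw [sum_const, nsmul_eq_mul]
    split_ifs with hd
    · rw [KN_count n s j T J hT hJ hjs hd]
    · have h4 : (univ : Finset (Finset (Fin n))).filter
          (fun U => U.card = s ∧ Disjoint U T ∧ J ⊆ U) = ∅ := by
        rw [filter_eq_empty_iff]
        rintro U - ⟨_, hU2, hU3⟩
        apply hd
        rw [← disjoint_iff_inter_eq_empty]
        exact hU2.mono_left hU3
      rw [h4, card_empty, Nat.cast_zero, zero_mul]
  rw [h2, sum_congr rfl h3, ← sum_filter, filter_filter, ← mul_sum, hL]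
  ring


end PartKN

end Pool.Agent.W167.K57
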