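import Mathlib
import Pool.Agent.W167.K57.Dim
import Pool.Agent.W167.K57.Parts

set_option autoImplicit false

namespace Pool.Agent.W167.K57
open Finset

theorem bound {n : ℕ} (s : ℕ) (hs : 2 * s ≤ n) (F : Finset (Finset (Fin n)))
    (hF : IsAntichain (· ⊆ ·) (F : Set (Finset (Fin n))))
    (hd : ∀ A ∈ F, ∀ B ∈ F, (symmDiff A B).card ≤ 2 * s + 1) :
    F.card ≤ n.choose s + 2 * ∑ i ∈ Ie s, n.choose i := by
  classical
  by_contra hcon
  push Not at hcon
  obtain ⟨α, h, hne, h0, hlift, hharm⟩ := exists_sol s F hcon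
  have hIo : ∀ j ∈ Io s, j < s ∧ j % 2 ≠ s % 2 := by
    intro j hj
    simpa [Io] using hj
  have hH : ∀ j ∈ Io s, Harm n j h := by
    intro j hj
    apply LA n j h
    intro I hI
    have hj' := hIo j hj
    have := hharm I (by
      unfold Ie
      simp only [Finset.mem_filter, Finset.mem_range]
      omega)
    rw [← hI]
    exact this
  have q1 := quad1 s F hF hd α
  rw [quad2, quad3 s (fm F α) h0] at q1
  have hU : ∀ T ∈ (univ : Finset (Finset (Fin n))).filter (fun T => T.card = s),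
      fm F α T * ∑ U ∈ (univ : Finset (Finset (Fin n))).filter (fun U => U.card = s ∧ Disjoint U T), fm F α U
      = ∑ i ∈ Io s, ∑ j ∈ Io s, ((-1 : ℝ) ^ j * ((n - s - j).choose (s - j) : ℝ)) *
          (Lift n i h T * Lift n j h T) := by
    intro T hT
    simp only [Finset.mem_filter, Finset.mem_univ, true_and] at hT
    have e1 : ∑ U ∈ (univ : Finset (Finset (Fin n))).filter (fun U => U.card = s ∧ Disjoint U T), fm F α U
        = ∑ j ∈ Io s, ((-1 : ℝ) ^ j * ((n - s - j).choose (s - j) : ℝ)) * Lift n j h T := by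
      have e2 : ∑ U ∈ (univ : Finset (Finset (Fin n))).filter (fun U => U.card = s ∧ Disjoint U T), fm F α U
          = ∑ U ∈ (univ : Finset (Finset (Fin n))).filter (fun U => U.card = s ∧ Disjoint U T),
            ∑ j ∈ Io s, Lift n j h U := by
        refine Finset.sum_congr rfl (fun U hU => ?_)
        simp only [Finset.mem_filter, Finset.mem_univ, true_and] at hU
        exact hlift U hU.1
      rw [e2, Finset.sum_comm]
      refine Finset.sum_congr rfl (fun j hj => ?_)
      exact KN LB n s j h (hIo j hj).1.le (hH j hj) T hT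
    rw [e1, hlift T hT, Finset.sum_mul_sum]
    refine Finset.sum_congr rfl (fun i _ => Finset.sum_congr rfl (fun j _ => ?_))
    ring
  rw [Finset.sum_congr rfl hU] at q1
  have hV : ∑ T ∈ (univ : Finset (Finset (Fin n))).filter (fun T => T.card = s),
      ∑ i ∈ Io s, ∑ j ∈ Io s, ((-1 : ℝ) ^ j * ((n - s - j).choose (s - j) : ℝ)) *
          (Lift n i h T * Lift n j h T)
      = ∑ j ∈ Io s, ((-1 : ℝ) ^ j * ((n - s - j).choose (s - j) : ℝ)) *
          ∑ T ∈ (univ : Finset (Finset (Fin n))).filter (fun T => T.card = s), Lift n j h T ^ 2 := by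
    rw [Finset.sum_comm]
    refine Finset.sum_congr rfl (fun i hi => ?_)
    rw [Finset.sum_comm]
    rw [Finset.sum_eq_single i]
    · rw [Finset.mul_sum]
      refine Finset.sum_congr rfl (fun T _ => ?_)
      ring
    · intro j hj hji
      rw [← Finset.mul_sum]
      rcases lt_or_gt_of_ne hji with hlt | hlt
      · have := ORTH LB n s j i h hlt (hH i hi)
        have e : ∑ T ∈ (univ : Finset (Finset (Fin n))).filter (fun T => T.card = s),
            Lift n i h T * Lift n j h T = 0 := by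
          rw [← this]
          exact Finset.sum_congr rfl (fun T _ => mul_comm _ _)
        rw [e, mul_zero]
      · rw [ORTH LB n s i j h hlt (hH j hj), mul_zero]
    · intro hh; exact absurd hi hh
  rw [hV, Finset.mul_sum] at q1
  have hsgn : ∀ j ∈ Io s, (-1 : ℝ) ^ s * (((-1 : ℝ) ^ j * ((n - s - j).choose (s - j) : ℝ)) *
          ∑ T ∈ (univ : Finset (Finset (Fin n))).filter (fun T => T.card = s), Lift n j h T ^ 2)
      = - (((n - s - j).choose (s - j) : ℝ) *
          ∑ T ∈ (univ : Finset (Finset (Fin n))).filter (fun T => T.card = s), Lift n j h T ^ 2) := by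
    intro j hj
    have hj' := hIo j hj
    have : (-1 : ℝ) ^ s * (-1 : ℝ) ^ j = -1 := by
      rw [← pow_add]
      apply Odd.neg_one_pow
      rw [Nat.odd_iff]
      omega
    calc _ = ((-1 : ℝ) ^ s * (-1 : ℝ) ^ j) * (((n - s - j).choose (s - j) : ℝ) *
          ∑ T ∈ (univ : Finset (Finset (Fin n))).filter (fun T => T.card = s), Lift n j h T ^ 2) := by ring
      _ = _ := by rw [this]; ring
  rw [Finset.sum_congr rfl hsgn, Finset.sum_neg_distrib] at q1
  have hnn1 : 0 ≤ ∑ X ∈ F, α X ^ 2 := Finset.sum_nonneg (fun X _ => sq_nonneg _)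
  have hnn2 : ∀ j ∈ Io s, 0 ≤ (((n - s - j).choose (s - j) : ℝ) *
          ∑ T ∈ (univ : Finset (Finset (Fin n))).filter (fun T => T.card = s), Lift n j h T ^ 2) := by
    intro j _
    exact mul_nonneg (Nat.cast_nonneg _) (Finset.sum_nonneg (fun T _ => sq_nonneg _))
  have hnn3 := Finset.sum_nonneg hnn2
  have hz1 : ∑ X ∈ F, α X ^ 2 = 0 := by linarith
  have hz2 : ∑ j ∈ Io s, (((n - s - j).choose (s - j) : ℝ) *
          ∑ T ∈ (univ : Finset (Finset (Fin n))).filter (fun T => T.card = s), Lift n j h T ^ 2) = 0 := by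
    linarith
  rcases hne with ⟨X, hX, hX0⟩ | ⟨J, hJ, hJ0⟩
  · have := (Finset.sum_eq_zero_iff_of_nonneg (fun X _ => sq_nonneg (α X))).mp hz1 X hX
    exact hX0 (pow_eq_zero_iff (two_ne_zero) |>.mp this)
  · have h1 := (Finset.sum_eq_zero_iff_of_nonneg hnn2).mp hz2 J.card hJ
    have hj' := hIo _ hJ
    have hpos : 0 < ((n - s - J.card).choose (s - J.card) : ℝ) := by
      exact_mod_cast Nat.choose_pos (by omega)
    have h2 : ∑ T ∈ (univ : Finset (Finset (Fin n))).filter (fun T => T.card = s), Lift n J.card h T ^ 2 = 0 := by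
      rcases mul_eq_zero.mp h1 with h3 | h3
      · exact absurd h3 hpos.ne'
      · exact h3
    have h3 : ∀ T : Finset (Fin n), T.card = s → Lift n J.card h T = 0 := by
      intro T hT
      have := (Finset.sum_eq_zero_iff_of_nonneg (fun T _ => sq_nonneg (Lift n J.card h T))).mp h2 T
        (by simp [hT])
      exact pow_eq_zero_iff (two_ne_zero) |>.mp this
    exact hJ0 (INJ LB n s J.card h hj'.1.le (by omega) (hH _ hJ) h3 J rfl)

/-- `C(n,i) * (n-s+1) ≤ s * C(n,i+1)` for `i < s`. -/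
lemma step_choose (n s i : ℕ) (hi : i < s) (hs : 2 * s ≤ n) :
    (n.choose i : ℝ) * ((n : ℝ) - s + 1) ≤ s * (n.choose (i + 1) : ℝ) := by
  have h1 : n.choose (i + 1) * (i + 1) = n.choose i * (n - i) := Nat.choose_succ_right_eq n i
  have h2 : (n.choose (i + 1) : ℝ) * ((i : ℝ) + 1) = (n.choose i : ℝ) * ((n : ℝ) - i) := by
    have h3 : ((n - i : ℕ) : ℝ) = (n : ℝ) - i := by
      rw [Nat.cast_sub (by omega)]
    rw [← h3]
    exact_mod_cast h1
  have h4 : (i : ℝ) + 1 ≤ s := by exact_mod_cast hi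
  have h5 : (0 : ℝ) ≤ (n.choose i : ℝ) := Nat.cast_nonneg _
  have h6 : (0 : ℝ) ≤ (n.choose (i + 1) : ℝ) := Nat.cast_nonneg _
  calc (n.choose i : ℝ) * ((n : ℝ) - s + 1) ≤ (n.choose i : ℝ) * ((n : ℝ) - i) := by
        apply mul_le_mul_of_nonneg_left _ h5; linarith
    _ = ((i : ℝ) + 1) * (n.choose (i + 1) : ℝ) := by rw [← h2]; ring
    _ ≤ s * (n.choose (i + 1) : ℝ) := mul_le_mul_of_nonneg_right h4 h6

end Pool.Agent.W167.K57
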