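import Mathlib

set_option autoImplicit false

namespace Pool.Agent.W167.K58
open Finset

noncomputable def gg (s t : ℕ) : ℝ := ∏ l ∈ range s, ((t : ℝ) - ((l : ℝ) + 1))

def StmSPAN : Prop := ∀ (n s c : ℕ), s ≤ c → ∀ (p : Polynomial ℝ), p.natDegree ≤ s →
  ∀ X : Finset (Fin n),
  (fun Y : {Y : Finset (Fin n) // Y.card = c} => p.eval ((X ∩ Y.1).card : ℝ)) ∈
    Submodule.span ℝ (Set.range (fun I : {I : Finset (Fin n) // I.card = s} =>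
      fun Y : {Y : Finset (Fin n) // Y.card = c} => if I.1 ⊆ Y.1 then (1 : ℝ) else 0))

def StmRCW : Prop := ∀ (n s m : ℕ), s ≤ m → ∀ (G : Finset (Finset (Fin n))) (α : Finset (Fin n) → ℝ),
  (∀ X ∈ G, X.card = m) → (∀ A ∈ G, ∀ B ∈ G, (A \ B).card ≤ s) →
  (∀ I : Finset (Fin n), I.card = s → ∑ X ∈ G.filter (fun X => I ⊆ X), α X = 0) →
  ∀ X ∈ G, α X = 0

def StmSH : Prop := ∀ (n s c : ℕ), s ≤ c → ∀ (G : Finset (Finset (Fin n))) (α : Finset (Fin n) → ℝ),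
  (∀ X ∈ G, X.card = c + 1) →
  (∀ Y : Finset (Fin n), Y.card = c → ∑ X ∈ G.filter (fun X => Y ⊆ X), α X = 0) →
  ∀ I : Finset (Fin n), I.card = s → ∑ X ∈ G.filter (fun X => I ⊆ X), α X = 0

def StmGRAM : Prop := ∀ (n s c : ℕ) (G : Finset (Finset (Fin n))) (α : Finset (Fin n) → ℝ),
  (∀ X ∈ G, X.card = c + 1) → (∀ A ∈ G, ∀ B ∈ G, (A \ B).card ≤ s) →
  (∀ X0 ∈ G, ∀ Y : Finset (Fin n), Y.card = c → Y ⊆ X0 → ∑ X ∈ G, α X * gg s (Y \ X).card = 0) →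
  ∀ Y : Finset (Fin n), Y.card = c → ∑ X ∈ G.filter (fun X => Y ⊆ X), α X = 0

def StmUP : Prop := ∀ (n s c : ℕ), s ≤ c → ∀ (G : Finset (Finset (Fin n))) (α : Finset (Fin n) → ℝ),
  (∀ X ∈ G, X.card = c + 1) → (∀ A ∈ G, ∀ B ∈ G, (A \ B).card ≤ s) →
  (∀ X0 ∈ G, ∀ Y : Finset (Fin n), Y.card = c → Y ⊆ X0 → ∑ X ∈ G, α X * gg s (Y \ X).card = 0) →
  ∀ X ∈ G, α X = 0

def StmDOWN : Prop := ∀ (n s c : ℕ), c + s ≤ n → ∀ (G : Finset (Finset (Fin n))) (α : Finset (Fin n) → ℝ),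
  (∀ X ∈ G, X.card + 1 = c) → (∀ A ∈ G, ∀ B ∈ G, (A \ B).card ≤ s) →
  (∀ Y : Finset (Fin n), Y.card = c → ∑ X ∈ G, α X * gg s (X \ Y).card = 0) →
  ∀ X ∈ G, α X = 0

end Pool.Agent.W167.K58
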