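import Mathlib
import Pool.Agent.W167.K57.Stm2

set_option autoImplicit false

/-! Proofs of the parts by helper141 (SPAN), helper732 (RCW), helper457 (SH), helper750 (GRAM), helper234 (DOWN). -/

namespace Pool.Agent.W167.K58
open Finset

section PartSPAN

noncomputable def indJ (n c : ℕ) (J : Finset (Fin n)) :
    {Y : Finset (Fin n) // Y.card = c} → ℝ :=
  fun Y => if J ⊆ Y.1 then (1 : ℝ) else 0

theorem indJ_mem (n s c : ℕ) (hsc : s ≤ c) (k : ℕ) : ∀ J : Finset (Fin n), J.card + k = s →
    indJ n c J ∈ Submodule.span ℝ (Set.range (fun I : {I : Finset (Fin n) // I.card = s} =>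
      fun Y : {Y : Finset (Fin n) // Y.card = c} => if I.1 ⊆ Y.1 then (1 : ℝ) else 0)) := by
  induction k with
  | zero =>
    intro J hJ
    exact Submodule.subset_span ⟨⟨J, by simpa using hJ⟩, rfl⟩
  | succ k ih =>
    intro J hJ
    have hlt : J.card < c := by omega
    have hpos : (0 : ℝ) < (c : ℝ) - J.card := by
      have : (J.card : ℝ) < c := by exact_mod_cast hlt
      linarith
    have h1 : indJ n c J = ((c : ℝ) - J.card)⁻¹ • ∑ x ∈ Jᶜ, indJ n c (insert x J) := by
      funext Y
      simp only [Pi.smul_apply, Finset.sum_apply, smul_eq_mul, indJ]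
      by_cases h : J ⊆ Y.1
      · have h2 : ∑ x ∈ Jᶜ, (if insert x J ⊆ Y.1 then (1 : ℝ) else 0) = (c : ℝ) - J.card := by
          have h3 : ∀ x ∈ Jᶜ, (if insert x J ⊆ Y.1 then (1 : ℝ) else 0) =
              if x ∈ Y.1 then 1 else 0 := by
            intro x _
            simp [Finset.insert_subset_iff, h]
          rw [Finset.sum_congr rfl h3, ← Finset.sum_filter, Finset.sum_const, nsmul_eq_mul, mul_one]
          have h4 : (Jᶜ.filter (fun x => x ∈ Y.1)) = Y.1 \ J := by
            ext x; simp [and_comm]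
          rw [h4, Finset.card_sdiff_of_subset h, Y.2, Nat.cast_sub hlt.le]
        rw [h2, if_pos h, inv_mul_cancel₀ hpos.ne']
      · rw [if_neg h]
        have h2 : ∑ x ∈ Jᶜ, (if insert x J ⊆ Y.1 then (1 : ℝ) else 0) = 0 :=
          Finset.sum_eq_zero fun x _ => if_neg fun h' => h ((Finset.subset_insert _ _).trans h')
        rw [h2, mul_zero]
    rw [h1]
    refine Submodule.smul_mem _ _ (Submodule.sum_mem _ fun x hx => ih _ ?_)
    rw [Finset.card_insert_of_notMem (by simpa using hx)]
    omega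

theorem SPAN : StmSPAN := by
  intro n s c hsc p hp X
  have h1 : (fun Y : {Y : Finset (Fin n) // Y.card = c} => p.eval ((X ∩ Y.1).card : ℝ)) =
      ∑ j ∈ Finset.range (s + 1), p.coeff j • ∑ g ∈ Fintype.piFinset (fun _ : Fin j => X),
        indJ n c (Finset.univ.image g) := by
    funext Y
    rw [Polynomial.eval_eq_sum_range' (Nat.lt_succ_of_le hp)]
    simp only [Finset.sum_apply, Pi.smul_apply, smul_eq_mul]
    refine Finset.sum_congr rfl fun j _ => ?_
    congr 1
    have h2 : ((X ∩ Y.1).card : ℝ) = ∑ x ∈ X, if x ∈ Y.1 then (1 : ℝ) else 0 := by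
      rw [← Finset.sum_filter, Finset.sum_const, nsmul_eq_mul, mul_one, Finset.filter_mem_eq_inter]
    have h3 : ((X ∩ Y.1).card : ℝ) ^ j =
        ∏ _i : Fin j, ∑ x ∈ X, if x ∈ Y.1 then (1 : ℝ) else 0 := by
      rw [h2, Finset.prod_const, Finset.card_univ, Fintype.card_fin]
    rw [h3, Finset.prod_univ_sum]
    refine Finset.sum_congr rfl fun g _ => ?_
    unfold indJ
    by_cases h : Finset.univ.image g ⊆ Y.1
    · rw [if_pos h]
      apply Finset.prod_eq_one
      intro i _
      exact if_pos (h (Finset.mem_image_of_mem g (Finset.mem_univ i)))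
    · rw [if_neg h]
      rw [Finset.not_subset] at h
      obtain ⟨y, hy, hyY⟩ := h
      obtain ⟨i, -, rfl⟩ := Finset.mem_image.1 hy
      exact Finset.prod_eq_zero (Finset.mem_univ i) (if_neg hyY)
  rw [h1]
  refine Submodule.sum_mem _ fun j hj => Submodule.smul_mem _ _ (Submodule.sum_mem _ fun g _ => ?_)
  have h4 : (Finset.univ.image g).card ≤ s := by
    refine Finset.card_image_le.trans ?_
    rw [Finset.card_univ, Fintype.card_fin]
    have := Finset.mem_range.1 hj
    omega
  exact indJ_mem n s c hsc (s - (Finset.univ.image g).card) _ (by omega)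


end PartSPAN

section PartRCW


theorem RCW (hSPAN : StmSPAN) : StmRCW := by
  classical
  intro n s m hsm G α hG hd hI X0 hX0
  let p : Polynomial ℝ := ∏ l ∈ range s, (Polynomial.C ((m : ℝ) - ((l : ℝ) + 1)) - Polynomial.X)
  have hdeg : ∀ a : ℝ, (Polynomial.C a - Polynomial.X).natDegree ≤ 1 := by
    intro a
    compute_degree
  have hp : p.natDegree ≤ s := by
    calc p.natDegree ≤ ∑ l ∈ range s,
          (Polynomial.C ((m : ℝ) - ((l : ℝ) + 1)) - Polynomial.X).natDegree :=
          Polynomial.natDegree_prod_le _ _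
      _ ≤ ∑ _l ∈ range s, 1 := by
          apply Finset.sum_le_sum
          intro l _
          exact hdeg _
      _ = s := by simp
  have heval : ∀ Y : Finset (Fin n), p.eval ((X0 ∩ Y).card : ℝ) = gg s (X0 \ Y).card := by
    intro Y
    have hm := hG X0 hX0
    have hc := Finset.card_inter_add_card_sdiff X0 Y
    have hc2 : ((X0 \ Y).card : ℝ) = (m : ℝ) - ((X0 ∩ Y).card : ℝ) := by
      rw [← hm, ← hc]
      push_cast
      ring
    simp only [p, gg, Polynomial.eval_prod]
    apply Finset.prod_congr rfl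
    intro l _
    rw [Polynomial.eval_sub, Polynomial.eval_C, Polynomial.eval_X, hc2]
    ring
  have h1 := hSPAN n s m hsm p hp X0
  have hL : ∀ φ ∈ Submodule.span ℝ (Set.range (fun I : {I : Finset (Fin n) // I.card = s} =>
      fun Y : {Y : Finset (Fin n) // Y.card = m} => if I.1 ⊆ Y.1 then (1 : ℝ) else 0)),
      ∑ X ∈ G.attach, α X.1 * φ ⟨X.1, hG X.1 X.2⟩ = 0 := by
    intro φ hφ
    induction hφ using Submodule.span_induction with
    | mem x hx =>
      obtain ⟨I, rfl⟩ := hx
      have h2 := hI I.1 I.2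
      rw [Finset.sum_filter, ← Finset.sum_attach] at h2
      refine (Finset.sum_congr rfl ?_).trans h2
      intro X _
      by_cases h : I.1 ⊆ X.1
      · simp only [if_pos h, mul_one]
      · simp only [if_neg h, mul_zero]
    | zero => simp
    | add x y _ _ hx hy =>
      simp only [Pi.add_apply, mul_add, Finset.sum_add_distrib, hx, hy, add_zero]
    | smul a x _ hx =>
      have : ∀ X : {X // X ∈ G}, α X.1 * (a • x) ⟨X.1, hG X.1 X.2⟩
          = a * (α X.1 * x ⟨X.1, hG X.1 X.2⟩) := by
        intro X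
        simp only [Pi.smul_apply, smul_eq_mul]
        ring
      simp only [this]
      rw [← Finset.mul_sum, hx, mul_zero]
  have h3 := hL _ h1
  simp only [heval] at h3
  have hz : ∀ X ∈ G.attach, X ≠ ⟨X0, hX0⟩ → α X.1 * gg s (X0 \ X.1).card = 0 := by
    intro X _ hne
    have hne2 : X.1 ≠ X0 := fun e => hne (Subtype.ext e)
    have hle := hd X0 hX0 X.1 X.2
    have hpos : 1 ≤ (X0 \ X.1).card := by
      rw [Nat.one_le_iff_ne_zero]
      intro h0
      rw [Finset.card_eq_zero, Finset.sdiff_eq_empty_iff_subset] at h0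
      apply hne2
      exact (Finset.eq_of_subset_of_card_le h0 (by rw [hG X0 hX0, hG X.1 X.2])).symm
    have hg : gg s (X0 \ X.1).card = 0 := by
      unfold gg
      apply Finset.prod_eq_zero (i := (X0 \ X.1).card - 1)
      · rw [Finset.mem_range]
        omega
      · have : (((X0 \ X.1).card - 1 : ℕ) : ℝ) = ((X0 \ X.1).card : ℝ) - 1 := by
          rw [Nat.cast_sub hpos, Nat.cast_one]
        rw [this]
        ring
    rw [hg, mul_zero]
  rw [Finset.sum_eq_single_of_mem (⟨X0, hX0⟩ : {X // X ∈ G}) (Finset.mem_attach _ _) hz] at h3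
  have hg0 : gg s (X0 \ X0).card ≠ 0 := by
    unfold gg
    rw [Finset.sdiff_self, Finset.card_empty]
    apply Finset.prod_ne_zero_iff.mpr
    intro l _
    have : (0 : ℝ) ≤ (l : ℝ) := Nat.cast_nonneg l
    push_cast
    intro h
    linarith
  exact (mul_eq_zero.mp h3).resolve_right hg0


end PartRCW

section PartSH

theorem SH : StmSH := by
  classical
  intro n s c hsc G α hG hY I hI
  have key : ∀ X ∈ G, (((powersetCard c (univ : Finset (Fin n))).filter
      (fun Y => I ⊆ Y)).filter (fun Y => Y ⊆ X)).card = if I ⊆ X then c + 1 - s else 0 := by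
    intro X hX
    split_ifs with h
    · have e : ((powersetCard c (univ : Finset (Fin n))).filter
          (fun Y => I ⊆ Y)).filter (fun Y => Y ⊆ X) = (X \ I).image (fun x => X.erase x) := by
        ext Y
        simp only [mem_filter, mem_powersetCard, subset_univ, true_and, mem_image, mem_sdiff]
        constructor
        · rintro ⟨⟨h1, h2⟩, h3⟩
          have hlt : Y.card < X.card := by rw [hG X hX]; omega
          obtain ⟨x, hx, hxY⟩ := exists_mem_notMem_of_card_lt_card hlt
          refine ⟨x, ⟨hx, fun hxI => hxY (h2 hxI)⟩, ?_⟩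
          have h4 : insert x Y = X := eq_of_subset_of_card_le (insert_subset hx h3)
            (by rw [card_insert_of_notMem hxY, hG X hX, h1])
          rw [← h4, erase_insert hxY]
        · rintro ⟨x, ⟨hx, hxI⟩, rfl⟩
          refine ⟨⟨?_, subset_erase.2 ⟨h, hxI⟩⟩, erase_subset _ _⟩
          rw [card_erase_of_mem hx, hG X hX]
          rfl
      rw [e, card_image_of_injOn, card_sdiff_of_subset h, hG X hX, hI]
      exact (erase_injOn X).mono (by intro x hx; exact (mem_sdiff.1 hx).1)
    · rw [card_eq_zero, filter_eq_empty_iff]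
      intro Y hY' hYX
      exact h ((mem_filter.1 hY').2.trans hYX)
  have h0 : ∑ Y ∈ (powersetCard c (univ : Finset (Fin n))).filter (fun Y => I ⊆ Y),
      ∑ X ∈ G.filter (fun X => Y ⊆ X), α X = 0 := by
    apply sum_eq_zero
    intro Y hY'
    exact hY Y (mem_powersetCard.1 (mem_filter.1 hY').1).2
  have h1 : ∑ Y ∈ (powersetCard c (univ : Finset (Fin n))).filter (fun Y => I ⊆ Y),
      ∑ X ∈ G.filter (fun X => Y ⊆ X), α X =
      ((c + 1 - s : ℕ) : ℝ) * ∑ X ∈ G.filter (fun X => I ⊆ X), α X := by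
    calc _ = ∑ Y ∈ (powersetCard c (univ : Finset (Fin n))).filter (fun Y => I ⊆ Y),
            ∑ X ∈ G, (if Y ⊆ X then α X else 0) := sum_congr rfl (fun Y _ => sum_filter _ _)
      _ = ∑ X ∈ G, ∑ Y ∈ (powersetCard c (univ : Finset (Fin n))).filter (fun Y => I ⊆ Y),
            (if Y ⊆ X then α X else 0) := sum_comm
      _ = ∑ X ∈ G, (if I ⊆ X then ((c + 1 - s : ℕ) : ℝ) * α X else 0) :=
          sum_congr rfl (fun X hX => by
            rw [← sum_filter, sum_const, key X hX, nsmul_eq_mul]
            split_ifs <;> simp)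
      _ = ∑ X ∈ G.filter (fun X => I ⊆ X), ((c + 1 - s : ℕ) : ℝ) * α X := (sum_filter _ _).symm
      _ = _ := (mul_sum _ _ _).symm
  rw [h0] at h1
  rcases mul_eq_zero.1 h1.symm with h2 | h2
  · exfalso
    have h3 : c + 1 - s = 0 := by exact_mod_cast h2
    omega
  · exact h2


end PartSH

section PartGRAM

theorem gram_gg0 (s : ℕ) : gg s 0 ≠ 0 := by
  unfold gg
  rw [Finset.prod_ne_zero_iff]
  intro l _
  have h : (0 : ℝ) ≤ l := Nat.cast_nonneg l
  intro h0
  push_cast at h0
  linarith

theorem gram_ggz (s t : ℕ) (h1 : 1 ≤ t) (h2 : t ≤ s) : gg s t = 0 := by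
  unfold gg
  refine Finset.prod_eq_zero (i := t - 1) (Finset.mem_range.2 (by omega)) ?_
  rw [Nat.cast_sub h1]
  push_cast
  ring

theorem GRAM : StmGRAM := by
  intro n s c G α hc hG h Y hY
  by_cases hne : ∃ X0 ∈ G, Y ⊆ X0
  · obtain ⟨X0, hX0, hYX⟩ := hne
    have h1 := h X0 hX0 Y hY hYX
    have h2 : ∑ X ∈ G, α X * gg s (Y \ X).card =
        (∑ X ∈ G.filter (fun X => Y ⊆ X), α X) * gg s 0 := by
      rw [Finset.sum_mul, Finset.sum_filter]
      refine Finset.sum_congr rfl fun X hX => ?_
      by_cases hs : Y ⊆ X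
      · rw [if_pos hs, Finset.sdiff_eq_empty_iff_subset.2 hs, Finset.card_empty]
      · rw [if_neg hs]
        have h3 : 1 ≤ (Y \ X).card := by
          rw [Nat.one_le_iff_ne_zero]
          intro h4
          exact hs (Finset.sdiff_eq_empty_iff_subset.1 (Finset.card_eq_zero.1 h4))
        have h5 : (Y \ X).card ≤ s :=
          (Finset.card_le_card (Finset.sdiff_subset_sdiff hYX (Finset.Subset.refl X))).trans
            (hG X0 hX0 X hX)
        rw [gram_ggz s _ h3 h5, mul_zero]
    rw [h2] at h1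
    exact (mul_eq_zero.1 h1).resolve_right (gram_gg0 s)
  · push Not at hne
    rw [Finset.filter_eq_empty_iff.2 (fun X hX => hne X hX), Finset.sum_empty]


end PartGRAM

section PartDOWN

theorem DOWN (hUP : StmUP) : StmDOWN := by
  intro n s c hc G α h1 h2 h3 X hX
  have key := hUP n s (n - c) (by omega) (G.image (fun Z => Zᶜ)) (fun Z => α Zᶜ) ?_ ?_ ?_ Xᶜ
    (mem_image_of_mem _ hX)
  · simpa using key
  · intro Z hZ
    obtain ⟨W, hW, rfl⟩ := mem_image.1 hZ
    have := h1 W hW
    rw [card_compl, Fintype.card_fin]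
    omega
  · intro A hA B hB
    obtain ⟨A', hA', rfl⟩ := mem_image.1 hA
    obtain ⟨B', hB', rfl⟩ := mem_image.1 hB
    have e : A'ᶜ \ B'ᶜ = B' \ A' := by
      ext x
      simp only [mem_sdiff, mem_compl, not_not]
      tauto
    show (A'ᶜ \ B'ᶜ).card ≤ s
    rw [e]
    exact h2 B' hB' A' hA'
  · intro X0 _ Y hY _
    rw [sum_image (fun a _ b _ h => compl_injective h)]
    have hYc : (Yᶜ).card = c := by
      rw [card_compl, Fintype.card_fin]
      omega
    rw [← h3 Yᶜ hYc]
    apply sum_congr rfl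
    intro W _
    have e : Y \ Wᶜ = W \ Yᶜ := by
      ext x
      simp only [mem_sdiff, mem_compl, not_not]
      tauto
    show α (Wᶜᶜ) * gg s (Y \ Wᶜ).card = α W * gg s (W \ Yᶜ).card
    rw [compl_compl, e]


end PartDOWN

end Pool.Agent.W167.K58
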