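import Mathlib
import Pool.Agent.W167.K57.Stm2

set_option autoImplicit false

namespace Pool.Agent.W167.K58
open Finset

lemma gg_zero (s t : ℕ) (h1 : 1 ≤ t) (h2 : t ≤ s) : gg s t = 0 := by
  unfold gg
  apply Finset.prod_eq_zero (i := t - 1)
  · rw [Finset.mem_range]; omega
  · have : ((t - 1 : ℕ) : ℝ) = (t : ℝ) - 1 := by rw [Nat.cast_sub h1]; simp
    rw [this]; ring

lemma gg_ne (s : ℕ) : gg s 0 ≠ 0 := by
  unfold gg
  rw [Finset.prod_ne_zero_iff]
  intro l _
  have : (0 : ℝ) ≤ l := Nat.cast_nonneg _
  simp only [Nat.cast_zero]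
  intro h
  linarith

lemma sd_card {n : ℕ} (A B : Finset (Fin n)) :
    (symmDiff A B).card = (A \ B).card + (B \ A).card := by
  rw [symmDiff_def, Finset.sup_eq_union, Finset.card_union_of_disjoint disjoint_sdiff_sdiff]

lemma sd_rel {n : ℕ} (A B : Finset (Fin n)) :
    (A \ B).card + B.card = (B \ A).card + A.card := by
  rw [Finset.card_sdiff_add_card, Finset.card_sdiff_add_card, Finset.union_comm]

lemma sd_pos {n : ℕ} (A B : Finset (Fin n)) (h : ¬ A ⊆ B) : 1 ≤ (A \ B).card := by
  rw [Nat.one_le_iff_ne_zero, Ne, Finset.card_eq_zero, Finset.sdiff_eq_empty_iff_subset]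
  exact h

noncomputable def ph {n : ℕ} (s c : ℕ) (X Y : Finset (Fin n)) : ℝ :=
  if X.card ≤ c then gg s (X \ Y).card else gg s (Y \ X).card

noncomputable def pol (s m : ℕ) : Polynomial ℝ :=
  ∏ l ∈ range s, (Polynomial.C ((m : ℝ) - ((l : ℝ) + 1)) - Polynomial.X)

lemma pol_deg (s m : ℕ) : (pol s m).natDegree ≤ s := by
  unfold pol
  refine (Polynomial.natDegree_prod_le _ _).trans ?_
  refine (Finset.sum_le_sum (fun l _ => (?_ : _ ≤ 1))).trans (by simp)
  refine (Polynomial.natDegree_sub_le _ _).trans ?_
  rw [Polynomial.natDegree_C, Polynomial.natDegree_X]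
  norm_num

lemma pol_eval (s m x : ℕ) (h : x ≤ m) : (pol s m).eval (x : ℝ) = gg s (m - x) := by
  unfold pol gg
  rw [Polynomial.eval_prod]
  refine Finset.prod_congr rfl (fun l _ => ?_)
  rw [Nat.cast_sub h]
  simp
  ring

theorem three (hSPAN : StmSPAN) (hUP : StmUP) (hDOWN : StmDOWN) {n : ℕ} (s c : ℕ)
    (hsc : s ≤ c) (hcn : c + s ≤ n) (F : Finset (Finset (Fin n)))
    (hF : IsAntichain (· ⊆ ·) (F : Set (Finset (Fin n))))
    (hsz : ∀ X ∈ F, X.card + 1 = c ∨ X.card = c ∨ X.card = c + 1)
    (hd : ∀ A ∈ F, ∀ B ∈ F, (symmDiff A B).card ≤ 2 * s + 1) :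
    F.card ≤ n.choose s := by
  classical
  let b : {I : Finset (Fin n) // I.card = s} → ({Y : Finset (Fin n) // Y.card = c} → ℝ) :=
    fun I => fun Y => if I.1 ⊆ Y.1 then (1 : ℝ) else 0
  let φ : {X // X ∈ F} → ({Y : Finset (Fin n) // Y.card = c} → ℝ) := fun X => fun Y => ph s c X.1 Y.1
  have hφ : ∀ X, φ X ∈ Submodule.span ℝ (Set.range b) := by
    intro X
    by_cases hX : X.1.card ≤ c
    · have := hSPAN n s c hsc (pol s X.1.card) (pol_deg _ _) X.1
      convert this using 1
      funext Y
      have h1 : (X.1 ∩ Y.1).card ≤ X.1.card := Finset.card_le_card Finset.inter_subset_left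
      rw [pol_eval _ _ _ h1]
      simp only [φ, ph, if_pos hX]
      congr 1
      have := Finset.card_sdiff_add_card_inter X.1 Y.1
      omega
    · have := hSPAN n s c hsc (pol s c) (pol_deg _ _) X.1
      convert this using 1
      funext Y
      have h1 : (X.1 ∩ Y.1).card ≤ c :=
        (Finset.card_le_card Finset.inter_subset_right).trans Y.2.le
      rw [pol_eval _ _ _ h1]
      simp only [φ, ph, if_neg hX]
      congr 1
      have := Finset.card_sdiff_add_card_inter Y.1 X.1
      rw [Finset.inter_comm, Y.2] at this
      omega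
  have hind : LinearIndependent ℝ φ := by
    rw [Fintype.linearIndependent_iff]
    intro g hg
    let α : Finset (Fin n) → ℝ := fun X => if hX : X ∈ F then g ⟨X, hX⟩ else 0
    have hrel : ∀ Y : Finset (Fin n), Y.card = c → ∑ X ∈ F, α X * ph s c X Y = 0 := by
      intro Y hY
      have h1 := congrFun hg ⟨Y, hY⟩
      rw [Finset.sum_apply] at h1
      rw [← Finset.sum_coe_sort F]
      simp only [Pi.smul_apply, smul_eq_mul, Pi.zero_apply] at h1
      rw [← h1]
      refine Finset.sum_congr rfl (fun X _ => ?_)
      simp only [α, X.2, dif_pos, φ]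
    -- middle level
    have hmid : ∀ Y ∈ F, Y.card = c → α Y = 0 := by
      intro Y hY hYc
      have h1 := hrel Y hYc
      rw [Finset.sum_eq_single Y] at h1
      · have h2 : ph s c Y Y = gg s 0 := by
          unfold ph
          rw [if_pos hYc.le]
          simp
        rw [h2] at h1
        exact (mul_eq_zero.mp h1).resolve_right (gg_ne s)
      · intro X hX hXY
        have e1 := hd X hX Y hY
        rw [sd_card] at e1
        have e2 := sd_rel X Y
        have e3 := sd_pos X Y (fun h => hF hX hY hXY h)
        have e4 := sd_pos Y X (fun h => hF hY hX hXY.symm h)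
        have e5 := hsz X hX
        unfold ph
        split_ifs with hc
        · rw [gg_zero s _ e3 (by omega), mul_zero]
        · rw [gg_zero s _ e4 (by omega), mul_zero]
      · intro h; exact absurd hY h
    have htop : ∀ X ∈ F.filter (fun X => X.card = c + 1), α X = 0 := by
      apply hUP n s c hsc (F.filter (fun X => X.card = c + 1)) α
      · intro X hX; exact (Finset.mem_filter.mp hX).2
      · intro A hA B hB
        rw [Finset.mem_filter] at hA hB
        have e1 := hd A hA.1 B hB.1
        rw [sd_card] at e1
        have e2 := sd_rel A B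
        omega
      · intro X0 hX0 Y hY hYX
        rw [Finset.mem_filter] at hX0
        have h1 := hrel Y hY
        rw [← h1, Finset.sum_filter]
        refine Finset.sum_congr rfl (fun X hX => ?_)
        rcases hsz X hX with h | h | h
        · rw [if_neg (by omega)]
          have hne : X ≠ X0 := by rintro rfl; omega
          have e1 := hd X hX X0 hX0.1
          rw [sd_card] at e1
          have e2 := sd_rel X X0
          have e3 := sd_pos X X0 (fun h => hF hX hX0.1 hne h)
          have e4 : (X \ X0).card ≤ (X \ Y).card :=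
            Finset.card_le_card (Finset.sdiff_subset_sdiff (Finset.Subset.refl _) hYX)
          have e5 : (X \ Y).card ≤ (X \ X0).card + (X0 \ Y).card := by
            refine (Finset.card_le_card ?_).trans (Finset.card_union_le _ _)
            intro x hx
            simp only [Finset.mem_sdiff, Finset.mem_union] at hx ⊢
            by_cases hx0 : x ∈ X0
            · exact Or.inr ⟨hx0, hx.2⟩
            · exact Or.inl ⟨hx.1, hx0⟩
          have e6 : (X0 \ Y).card = 1 := by
            rw [Finset.card_sdiff_of_subset hYX]; omega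
          unfold ph
          rw [if_pos (by omega), gg_zero s _ (by omega) (by omega), mul_zero]
        · rw [if_neg (by omega), hmid X hX h, zero_mul]
        · rw [if_pos h]
          unfold ph
          rw [if_neg (by omega)]
    have hbot : ∀ X ∈ F.filter (fun X => X.card + 1 = c), α X = 0 := by
      apply hDOWN n s c hcn (F.filter (fun X => X.card + 1 = c)) α
      · intro X hX; exact (Finset.mem_filter.mp hX).2
      · intro A hA B hB
        rw [Finset.mem_filter] at hA hB
        have e1 := hd A hA.1 B hB.1
        rw [sd_card] at e1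
        have e2 := sd_rel A B
        omega
      · intro Y hY
        have h1 := hrel Y hY
        rw [← h1, Finset.sum_filter]
        refine Finset.sum_congr rfl (fun X hX => ?_)
        rcases hsz X hX with h | h | h
        · rw [if_pos h]
          unfold ph
          rw [if_pos (by omega)]
        · rw [if_neg (by omega), hmid X hX h, zero_mul]
        · rw [if_neg (by omega), htop X (Finset.mem_filter.mpr ⟨hX, h⟩), zero_mul]
    rintro ⟨X, hX⟩
    have hα : α X = g ⟨X, hX⟩ := by simp only [α, hX, dif_pos]
    rw [← hα]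
    rcases hsz X hX with h | h | h
    · exact hbot X (Finset.mem_filter.mpr ⟨hX, h⟩)
    · exact hmid X hX h
    · exact htop X (Finset.mem_filter.mpr ⟨hX, h⟩)
  have h1 : Module.finrank ℝ (Submodule.span ℝ (Set.range φ)) = Fintype.card {X // X ∈ F} :=
    finrank_span_eq_card hind
  have h2 : Module.finrank ℝ (Submodule.span ℝ (Set.range φ))
      ≤ Module.finrank ℝ (Submodule.span ℝ (Set.range b)) := by
    apply Submodule.finrank_mono
    rw [Submodule.span_le]
    rintro _ ⟨X, rfl⟩
    exact hφ X
  have h3 : Module.finrank ℝ (Submodule.span ℝ (Set.range b))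
      ≤ Fintype.card {I : Finset (Fin n) // I.card = s} := finrank_range_le_card b
  have h4 : Fintype.card {I : Finset (Fin n) // I.card = s} = n.choose s := by
    rw [Fintype.card_finset_len, Fintype.card_fin]
  rw [Fintype.card_coe] at h1
  omega

end Pool.Agent.W167.K58
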