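import Mathlib
import Pool.Agent.W167.K57.Final

set_option autoImplicit false

namespace Pool.Agent.Results.MP_f155e9_co.UniformDiameterBound

open Finset Pool.Agent.W167.K57

lemma sum_Ie_succ_succ (n s : ℕ) : ∑ i ∈ Ie (s + 2), n.choose i = ∑ i ∈ Ie s, n.choose i + n.choose s := by
  unfold Ie
  rw [Finset.sum_filter, Finset.sum_range_succ, Finset.sum_range_succ, Finset.sum_filter]
  have h1 : s % 2 = (s + 2) % 2 := by omega
  have h2 : ¬ (s + 1) % 2 = (s + 2) % 2 := by omega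
  rw [if_pos h1, if_neg h2, add_zero]
  congr 1
  refine Finset.sum_congr rfl (fun i _ => ?_)
  rw [← h1]

lemma tail_bound (n : ℕ) : ∀ s : ℕ, 2 * s ≤ n →
    ((∑ i ∈ Ie s, n.choose i : ℕ) : ℝ) * (((n : ℝ) - s + 1) ^ 2 - (s : ℝ) ^ 2)
      ≤ (s : ℝ) ^ 2 * (n.choose s : ℝ)
  | 0, _ => by simp [Ie]
  | 1, _ => by
      have : Ie 1 = ∅ := by decide
      rw [this]
      simp
  | s + 2, h => by
      have ih := tail_bound n s (by omega)
      rw [sum_Ie_succ_succ]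
      have a1 := step_choose n (s + 2) s (by omega) h
      have a2 := step_choose n (s + 2) (s + 1) (by omega) h
      have hn : (2 : ℝ) * (s + 2) ≤ n := by exact_mod_cast h
      have hs0 : (0 : ℝ) ≤ s := Nat.cast_nonneg _
      have hc0 : (0 : ℝ) ≤ (n.choose s : ℝ) := Nat.cast_nonneg _
      have hc1 : (0 : ℝ) ≤ (n.choose (s + 1) : ℝ) := Nat.cast_nonneg _
      have hc2 : (0 : ℝ) ≤ (n.choose (s + 2) : ℝ) := Nat.cast_nonneg _
      have hE : (0 : ℝ) ≤ ((∑ i ∈ Ie s, n.choose i : ℕ) : ℝ) := Nat.cast_nonneg _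
      push_cast at a1 a2 ih hE ⊢
      set E : ℝ := ∑ i ∈ Ie s, (n.choose i : ℝ) with hEdef
      set c0 : ℝ := (n.choose s : ℝ) with hc0def
      set c1 : ℝ := (n.choose (s + 1) : ℝ) with hc1def
      set c2 : ℝ := (n.choose (s + 2) : ℝ) with hc2def
      set q : ℝ := (n : ℝ) - (s + 2) + 1 with hq
      have hq0 : 0 < q := by rw [hq]; linarith
      -- c0 * q^2 ≤ (s+2)^2 * c2
      have b1 : c0 * q ^ 2 ≤ (s + 2) ^ 2 * c2 := by
        have c : c0 * q * q ≤ (s + 2) * c1 * q := mul_le_mul_of_nonneg_right a1 hq0.le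
        have d : (s + 2) * (c1 * q) ≤ (s + 2) * ((s + 2) * c2) :=
          mul_le_mul_of_nonneg_left a2 (by linarith)
        nlinarith
      have b2 : E * (q ^ 2 - (s + 2) ^ 2) ≤ (s + 2) ^ 2 * c0 := by
        have c : q ^ 2 - (s + 2) ^ 2 ≤ ((n : ℝ) - s + 1) ^ 2 - (s : ℝ) ^ 2 := by
          rw [hq]; nlinarith
        have d : E * (q ^ 2 - (s + 2) ^ 2) ≤ E * (((n : ℝ) - s + 1) ^ 2 - (s : ℝ) ^ 2) :=
          mul_le_mul_of_nonneg_left c hE
        have e : (s : ℝ) ^ 2 * c0 ≤ (s + 2) ^ 2 * c0 := by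
          apply mul_le_mul_of_nonneg_right _ hc0
          nlinarith
        linarith
      nlinarith

/-- Antichains of diameter at most `n - k` in `2^[n]`, all `n` and `k`.  With `s = ⌊(n-k)/2⌋`:
`|F| ≤ M(n,k) + 2 (C(n,s-2) + C(n,s-4) + ...)`, and therefore
`(n+1)(n-2s+1) |F| ≤ ((n-s+1)^2 + s^2) M(n,k)`, where `M(n,k) = C(n, ⌈(n+k)/2⌉)`. -/
theorem result :
    ∀ n k : ℕ, k ≤ n →
      ∀ F : Finset (Finset (Fin n)),
        IsAntichain (· ⊆ ·) (F : Set (Finset (Fin n))) →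
        (∀ A ∈ F, ∀ B ∈ F, (symmDiff A B).card ≤ n - k) →
        F.card ≤ n.choose ((n + k + 1) / 2) +
            2 * ∑ i ∈ (range ((n - k) / 2)).filter (fun i => i % 2 = ((n - k) / 2) % 2), n.choose i ∧
        (n + 1) * (n - 2 * ((n - k) / 2) + 1) * F.card ≤
          ((n - (n - k) / 2 + 1) ^ 2 + ((n - k) / 2) ^ 2) * n.choose ((n + k + 1) / 2) := by
  intro n k hk F hF hd
  obtain ⟨s, hs⟩ : ∃ s, s = (n - k) / 2 := ⟨_, rfl⟩
  have h1 : n.choose ((n + k + 1) / 2) = n.choose s := by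
    have : (n + k + 1) / 2 = n - s := by omega
    rw [this, Nat.choose_symm (by omega)]
  have h2s : 2 * s ≤ n := by omega
  have hb := bound s h2s F hF (fun A hA B hB => (hd A hA B hB).trans (by omega))
  rw [← hs, h1]
  refine ⟨hb, ?_⟩
  have ht := tail_bound n s h2s
  have hb' : (F.card : ℝ) ≤ (n.choose s : ℝ) + 2 * ((∑ i ∈ Ie s, n.choose i : ℕ) : ℝ) := by
    exact_mod_cast hb
  have hn : (2 : ℝ) * s ≤ n := by exact_mod_cast h2s
  have hs0 : (0 : ℝ) ≤ s := Nat.cast_nonneg _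
  have hq : (0 : ℝ) ≤ ((n : ℝ) - s + 1) ^ 2 - (s : ℝ) ^ 2 := by nlinarith
  have hfin : ((n : ℝ) + 1) * ((n : ℝ) - 2 * s + 1) * F.card
      ≤ (((n : ℝ) - s + 1) ^ 2 + (s : ℝ) ^ 2) * (n.choose s : ℝ) := by
    have e : ((n : ℝ) + 1) * ((n : ℝ) - 2 * s + 1) = ((n : ℝ) - s + 1) ^ 2 - (s : ℝ) ^ 2 := by ring
    rw [e]
    have := mul_le_mul_of_nonneg_left hb' hq
    nlinarith
  have c1 : ((n - 2 * s : ℕ) : ℝ) = (n : ℝ) - 2 * s := by
    rw [Nat.cast_sub h2s]; push_cast; ring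
  have c2 : ((n - s : ℕ) : ℝ) = (n : ℝ) - s := by
    rw [Nat.cast_sub (by omega)]
  have : (((n + 1) * (n - 2 * s + 1) * F.card : ℕ) : ℝ)
      ≤ ((((n - s + 1) ^ 2 + s ^ 2) * n.choose s : ℕ) : ℝ) := by
    push_cast
    rw [c1, c2]
    exact hfin
  exact_mod_cast this

end Pool.Agent.Results.MP_f155e9_co.UniformDiameterBound
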